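import Pool.Agent.H96.PC.F
import Pool.Agent.H96.LM.E
import Pool.Agent.H96.BK.C

/-!
# Primes `p_n + 2 (P_i(n) + b_i)`, the constants `b_i` running through arbitrary thin subsets of residue classes to
# large moduli

The constants `b i` are the integers near `c i + q i * t i z`, where the moduli `q i` may be as large as
`N ^ (2 / 3 - ρ)`, without exception if `q i` has no divisor in a sparse set `D` of integers larger than `log ^ A N`,
and (for most moduli) even as large as `N / log ^ e N`, and where `t i z` is an ARBITRARY finite family of integers with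
an additive energy of some order which is minimal, at the scale `N / q i`, up to a power of the logarithm. Such a family
may consist of `(N / q i) ^ ε` integers only. For instance the `t i z` may be the values of a polynomial at an arbitrary
dense set of arguments (`c + q p ^ 2` with primes `p`), or products of members of several families, changed by arbitrary
functions each of which does not depend on one of the members. The `P_i` are arbitrary functions for which the integers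
`p_n + 2 P_i(n)`, `n ∈ 𝒩`, are distinct, positive and at most `B N`, for instance integer-valued polynomials of degree
`≤ 1` with leading coefficient `≥ 0`, with `𝒩` the set of all `n ≤ N / log N` or any subset.

Proof: the difference of the von Mangoldt function and its sieve model has small mean values over a whole residue class
(`Pool.Agent.Y883.T4`, by the dispersion method, for most moduli); this is combined, by Hölder's inequality and a
splitting of the circle according to the size of the exponential sum over the family, with the energy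
(`Pool.Agent.H96.PC`). The energies of the perturbed products are estimated with an inequality of the type of Gowers,
Cauchy and Schwarz (`Pool.Agent.H96.PR`).

From Mathlib: `Nat.nth Nat.Prime (n - 1)`: the `n`-th prime; `ℤ[X]`: the polynomials with integer coefficients;
`Fintype.piFinset E`: the product of the sets `E i`.
-/

set_option autoImplicit false

namespace Pool.Agent.Results.MP_3aaefc_nt.ConstantsInResidueClasses

open Finset Polynomial

/-- the `n`-th prime, `n ≥ 1` -/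
noncomputable def p (n : ℕ) : ℕ := Nat.nth Nat.Prime (n - 1)

/-- The additive energy of order `h` of a finite family of integers: the number of the solutions of
`v (i 1) + ... + v (i h) = v (j 1) + ... + v (j h)`. -/
noncomputable def energy (h : ℕ) {ι : Type} [Fintype ι] (v : ι → ℤ) : ℕ :=
  Nat.card {q : (Fin h → ι) × (Fin h → ι) // ∑ j, v (q.1 j) = ∑ j, v (q.2 j)}

/-- `f j x` does not depend on the coordinate `x j`, for all `j`; otherwise these functions are arbitrary. -/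
def Free {m : ℕ} {X : Fin m → Type} (f : Fin m → (∀ j, X j) → ℤ) : Prop :=
  ∀ (j : Fin m) (x x' : ∀ j, X j), (∀ t, t ≠ j → x t = x' t) → f j x = f j x'

/-- The product of the `a j (x j)`, changed by the sum of the `f j x`. -/
def val {m : ℕ} {X : Fin m → Type} (a : ∀ j, X j → ℤ) (f : Fin m → (∀ j, X j) → ℤ) (x : ∀ j, X j) : ℤ :=
  ∏ j, a j (x j) + ∑ j, f j x

/-- the number of the `n ∈ 𝒩` for which all the numbers `p_n + 2 P_i(n)` are prime (they are positive in the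
theorem) -/
noncomputable def count {k : ℕ} (P : Fin k → ℕ → ℤ) (𝒩 : Finset ℕ) : ℕ :=
  (𝒩.filter (fun n => ∀ i, ((p n : ℤ) + 2 * P i n).toNat.Prime)).card

/-- the number of the `n ∈ 𝒩` for which none of the numbers `p_n + 2 P_i(n)` has a prime factor `≤ z` -/
noncomputable def rough {k : ℕ} (P : Fin k → ℕ → ℤ) (𝒩 : Finset ℕ) (z : ℕ) : ℕ :=
  (𝒩.filter (fun n => ∀ q ∈ (Icc 1 z).filter Nat.Prime, ∀ i, ¬ (q : ℤ) ∣ (p n : ℤ) + 2 * P i n)).card

/-- the prediction: the density of the primes among the integers of size `N` without prime factors `≤ z` is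
`1 / (log N ∏_{q ≤ z} (1 - 1/q))` -/
noncomputable def expected {k : ℕ} (P : Fin k → ℕ → ℤ) (𝒩 : Finset ℕ) (z N : ℕ) : ℝ :=
  rough P 𝒩 z / (Real.log N * ∏ q ∈ (Icc 1 z).filter Nat.Prime, (1 - 1 / (q : ℝ))) ^ k

/-- The constants `b 1, ..., b k` are good: the number of the `n ∈ 𝒩` for which all the numbers `p_n + 2 (P_i(n) + b_i)`
are prime is as predicted, up to `ε` times the prediction plus `N / (log N) ^ A`. -/
def Good {k : ℕ} (ε : ℝ) (A N z : ℕ) (𝒩 : Finset ℕ) (P : Fin k → ℕ → ℤ) (b : Fin k → ℤ) : Prop :=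
  |(count (fun i n => P i n + b i) 𝒩 : ℝ) - expected (fun i n => P i n + b i) 𝒩 z N| ≤
    ε * expected (fun i n => P i n + b i) 𝒩 z N + N / Real.log N ^ A

/-- There are integers `b 1, ..., b k` with `|b i - v i| ≤ log ^ W N` for all `i` which are not good. -/
def Bad {k : ℕ} (ε : ℝ) (A W N z : ℕ) (𝒩 : Finset ℕ) (P : Fin k → ℕ → ℤ) (v : Fin k → ℤ) : Prop :=
  ∃ b : Fin k → ℤ, (∀ i, |(b i : ℝ) - v i| ≤ Real.log N ^ W) ∧ ¬ Good ε A N z 𝒩 P b

/-- The functions `P_i`, the set `𝒩` and the families `v i`, `i ≤ k`: the integers `p_n + 2 P_i(n)`, `n ∈ 𝒩`, are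
distinct, positive and at most `B N`, the members of the families are at most `B N` in absolute value, and
`p_n + 2 (P_i(n) + v i w)` is larger than `2 log ^ W N`, for all `n ∈ 𝒩` and all `w`. -/
def Adm {k : ℕ} (B W N : ℕ) (𝒩 : Finset ℕ) (P : Fin k → ℕ → ℤ) {Z : Fin k → Type} (v : ∀ i, Z i → ℤ) : Prop :=
  (∀ i, ∀ n ∈ 𝒩, 1 ≤ n ∧ 0 < (p n : ℤ) + 2 * P i n ∧ (p n : ℤ) + 2 * P i n ≤ B * N) ∧
  (∀ i, ∀ n ∈ 𝒩, ∀ n' ∈ 𝒩, n ≠ n' → (p n : ℤ) + 2 * P i n ≠ (p n' : ℤ) + 2 * P i n') ∧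
  (∀ i w, |v i w| ≤ B * N) ∧
  ∀ i w, ∀ n ∈ 𝒩, 2 * Real.log N ^ W < (((p n : ℤ) + 2 * (P i n + v i w) : ℤ) : ℝ)

/-- The moduli: `Q` is a set of moduli `1 ≤ q ≤ N`, `D` is a set of integers larger than `log ^ A N` with at most `X ^ ρ`
members up to `X`, for every `X ≥ 1`; every `q ≤ N ^ (2 / 3 - ρ)` without a divisor in `D` belongs to `Q`, and for every
`X ≤ N` at most `(X ^ 2 / N) log ^ e N` moduli `q ≤ X` without a divisor in `D` do not belong to `Q`. -/
def Moduli (ρ : ℝ) (A e N : ℕ) (D Q : Finset ℕ) : Prop :=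
  (∀ q ∈ Q, 1 ≤ q ∧ q ≤ N) ∧ (∀ d ∈ D, Real.log N ^ A < (d : ℝ)) ∧
  (∀ X : ℝ, 1 ≤ X → ((D.filter (fun d : ℕ => (d : ℝ) ≤ X)).card : ℝ) ≤ X ^ ρ) ∧
  (∀ q : ℕ, 1 ≤ q → (q : ℝ) ≤ (N : ℝ) ^ (2 / 3 - ρ) → (∀ d ∈ D, ¬ d ∣ q) → q ∈ Q) ∧
  ∀ X : ℕ, X ≤ N → (((Icc 1 X).filter (fun q => (∀ d ∈ D, ¬ d ∣ q) ∧ q ∉ Q)).card : ℝ) * N ≤ (X : ℝ) ^ 2 * Real.log N ^ e

open Classical in
/-- the conclusion for arbitrary families -/
def Concl (ε : ℝ) (h A B C W N z k : ℕ) (Q : Finset ℕ) : Prop :=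
  ∀ q : Fin k → ℕ, (∀ i, q i ∈ Q) → ∀ (c : Fin k → ℤ) (Z : Fin k → Type) [∀ i, Fintype (Z i)] (t : ∀ i, Z i → ℤ),
    (∀ i, (energy h (t i) : ℝ) * N ≤ Real.log N ^ C * q i * (Fintype.card (Z i) : ℝ) ^ (2 * h)) →
    ∀ (𝒩 : Finset ℕ) (P : Fin k → ℕ → ℤ), Adm B W N 𝒩 P (fun i w => c i + q i * t i w) →
    (((univ : Finset (∀ i, Z i)).filter (fun w => Bad ε A W N z 𝒩 P (fun i => c i + q i * t i (w i)))).card : ℝ) ≤
      Fintype.card (∀ i, Z i) / Real.log N ^ A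

lemma good_of {k : ℕ} (ε : ℝ) (A N z : ℕ) (𝒩 : Finset ℕ) (P : Fin k → ℕ → ℤ) (b : Fin k → ℤ) (f : Fin k → ℕ → ℕ) (s : Fin k → ℤ)
    (hL1 : 1 ≤ Real.log (N : ℝ)) (e0 : ∀ i, ∀ n ∈ 𝒩, (f i n : ℤ) + s i = (p n : ℤ) + 2 * (P i n + b i))
    (h5 : |(Pool.Agent.K7.H49.LT.cntD f s 𝒩 : ℝ) * Real.log N ^ k - Pool.Agent.K7.H49.LT.SfD f s 𝒩 z| ≤
      ε * Pool.Agent.K7.H49.LT.SfD f s 𝒩 z + N / Real.log N ^ A) : Good ε A N z 𝒩 P b := by
  have e1 : Pool.Agent.K7.H49.LT.cntD f s 𝒩 = count (fun i n => P i n + b i) 𝒩 := by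
    unfold Pool.Agent.K7.H49.LT.cntD count
    congr 1
    apply filter_congr
    intro n hn
    constructor
    · intro h i
      rw [← e0 i n hn]
      exact h i
    · intro h i
      rw [e0 i n hn]
      exact h i
  have e2 : Pool.Agent.K7.H49.LT.SfD f s 𝒩 z = (Pool.Agent.H373R2.T7.Vz z)⁻¹ ^ k *
      rough (fun i n => P i n + b i) 𝒩 z := by
    unfold Pool.Agent.K7.H49.LT.SfD rough
    have e3 : 𝒩.filter (fun n => ∀ p ∈ Pool.Agent.H373R2.T7.pz z, ∀ i, ¬ (p : ℤ) ∣ (f i n : ℤ) + s i) =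
        𝒩.filter (fun n => ∀ q ∈ (Icc 1 z).filter Nat.Prime, ∀ i, ¬ (q : ℤ) ∣ (p n : ℤ) + 2 * (P i n + b i)) := by
      apply filter_congr
      intro n hn
      constructor
      · intro h q hq i
        rw [← e0 i n hn]
        exact h q hq i
      · intro h q hq i
        rw [e0 i n hn]
        exact h q hq i
    rw [e3]
  rw [e1, e2] at h5
  have hV : Pool.Agent.H373R2.T7.Vz z = ∏ q ∈ (Icc 1 z).filter Nat.Prime, (1 - 1 / (q : ℝ)) := rfl
  obtain ⟨L, hL⟩ : ∃ L, L = Real.log (N : ℝ) := ⟨_, rfl⟩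
  unfold Good
  have e3 : expected (fun i n => P i n + b i) 𝒩 z N =
      ((Pool.Agent.H373R2.T7.Vz z)⁻¹ ^ k * rough (fun i n => P i n + b i) 𝒩 z) / Real.log N ^ k := by
    unfold expected
    rw [← hV, mul_pow]
    ring
  rw [e3]
  rw [← hL] at h5 hL1 ⊢
  have hL0 : 0 < L := by linarith
  set M := L ^ k with hM
  have hM1 : 1 ≤ M := one_le_pow₀ hL1
  have hM0 : 0 < M := by linarith
  set r := (Pool.Agent.H373R2.T7.Vz z)⁻¹ ^ k * (rough (fun i n => P i n + b i) 𝒩 z : ℝ)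
  set ct := (count (fun i n => P i n + b i) 𝒩 : ℝ)
  have e4 : ct - r / M = (ct * M - r) / M := by field_simp
  rw [e4, abs_div, abs_of_pos hM0, div_le_iff₀ hM0]
  refine h5.trans ?_
  have hn : (0 : ℝ) ≤ N / L ^ A := by positivity
  have e5 : ε * (r / M) * M = ε * r := by field_simp
  rw [add_mul, e5]
  nlinarith

lemma En_two (h : ℕ) {V : Type} [Fintype V] (v : V → ℤ) :
    Pool.Agent.TH935.GF.En h (fun w => 2 * v w) = Pool.Agent.TH935.GF.En h v := by
  unfold Pool.Agent.TH935.GF.En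
  apply Nat.card_congr
  refine Equiv.subtypeEquivRight fun q => ?_
  rw [← mul_sum, ← mul_sum]
  constructor
  · intro h1
    linarith
  · intro h1
    rw [h1]

open Classical in
/-- tuples from arbitrary families of small energy -/
lemma general (k h A B C W : ℕ) (ε ρ : ℝ) (hε : 0 < ε) (hρ : 0 < ρ) :
    ∃ D₀ e : ℕ, ∀ E : ℕ, ∃ N₀ : ℕ, ∀ N : ℕ, N₀ ≤ N → ∀ z : ℕ, Real.log N ^ D₀ ≤ z → (z : ℝ) ≤ Real.log N ^ E →
      ∃ D Q : Finset ℕ, Moduli ρ A e N D Q ∧ Concl ε h A B C W N z k Q := by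
  obtain ⟨B', hB'⟩ : ∃ B', B' = 2 * B := ⟨_, rfl⟩
  obtain ⟨A₁, h1⟩ := Pool.Agent.H96.PC.tuples_pr_win k (h + 1) A (W + 1) B' C ε hε (by omega)
  obtain ⟨D₀, e, h2⟩ := Pool.Agent.H96.PC.moduliF (2 * (B' + 1) + 4) A A₁ (by omega) ρ hρ
  refine ⟨D₀, e, fun E => ?_⟩
  obtain ⟨N₁, h1⟩ := h1 E
  obtain ⟨N₂, h2⟩ := h2 E
  obtain ⟨N₃, h3⟩ := Pool.Agent.H373R2.T7.ev_L' 2
  refine ⟨N₁ + N₂ + N₃ + 1, fun N hN z hz1 hz2 => ?_⟩
  have hL2 := h3 N (by omega)
  have hL1 : 1 ≤ Real.log (N : ℝ) := by linarith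
  have hNpos : (1 : ℝ) ≤ N := by exact_mod_cast (by omega : 1 ≤ N)
  have hz1' : 1 ≤ z := by
    have : (1 : ℝ) ≤ z := (one_le_pow₀ hL1).trans hz1
    exact_mod_cast this
  obtain ⟨f, D, hf1, hf2, hD1, hD2, hD3, hD4⟩ := h2 N (by omega) z hz1 hz2
  obtain ⟨Q, hQ⟩ : ∃ Q : Finset ℕ, Q = (Icc 1 N).filter
    (fun q => ¬ Pool.Agent.Y883.T4.BadF f ((2 * (B' + 1) + 4) * N) A₁ q) := ⟨_, rfl⟩
  have hQm : ∀ q, q ∈ Q ↔ (1 ≤ q ∧ q ≤ N) ∧ ¬ Pool.Agent.Y883.T4.BadF f ((2 * (B' + 1) + 4) * N) A₁ q := by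
    intro q
    rw [hQ, mem_filter, mem_Icc]
  refine ⟨D, Q, ⟨?_, hD1, hD2, ?_, ?_⟩, ?_⟩
  · intro q hq
    exact ((hQm q).1 hq).1
  · intro q hq1 hq2 hq3
    refine (hQm q).2 ⟨⟨hq1, ?_⟩, hD3 q hq1 hq2 hq3⟩
    have h4 : (q : ℝ) ≤ N := by
      refine hq2.trans ?_
      calc (N : ℝ) ^ (2 / 3 - ρ) ≤ (N : ℝ) ^ (1 : ℝ) := Real.rpow_le_rpow_of_exponent_le hNpos (by linarith)
        _ = N := Real.rpow_one _
    exact_mod_cast h4
  · intro X hX
    refine hD4 X hX _ ?_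
    intro q hq
    rw [mem_filter, mem_Icc] at hq
    refine ⟨hq.1.1, hq.1.2, hq.2.1, ?_⟩
    by_contra hcon
    exact hq.2.2 ((hQm q).2 ⟨⟨hq.1.1, by omega⟩, hcon⟩)
  · intro q hq c Z _ t hE 𝒩 P hadm
    obtain ⟨ha1, ha2, ha3, ha4⟩ := hadm
    obtain ⟨g, hg⟩ : ∃ g : Fin k → ℕ → ℕ, g = fun i n => ((p n : ℤ) + 2 * P i n).toNat := ⟨_, rfl⟩
    have hgz : ∀ i, ∀ n ∈ 𝒩, ((g i n : ℕ) : ℤ) = (p n : ℤ) + 2 * P i n := by
      intro i n hn
      rw [hg]
      exact Int.toNat_of_nonneg (ha1 i n hn).2.1.le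
    obtain ⟨V, hV⟩ : ∃ V : ℕ, V = 2 * ⌊Real.log N ^ W⌋₊ := ⟨_, rfl⟩
    have hfl : (⌊Real.log N ^ W⌋₊ : ℝ) ≤ Real.log N ^ W := Nat.floor_le (by positivity)
    have hVr : (V : ℝ) ≤ 2 * Real.log N ^ W := by rw [hV]; push_cast; linarith
    have hVW : (V : ℝ) ≤ Real.log N ^ (W + 1) := by
      have h6 : 0 ≤ Real.log (N : ℝ) ^ W := by positivity
      rw [pow_succ]
      nlinarith
    refine h1 N (by omega) z hz1' hz2 f hf1 hf2 q (fun i => ⟨((hQm _).1 (hq i)).1.1, ((hQm _).1 (hq i)).1.2, ((hQm _).1 (hq i)).2⟩)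
      (fun i => 2 * c i) Z (fun i w => 2 * t i w) ?_ ?_ 𝒩 g V hVW ?_ ?_ ?_ _ ?_
    · intro i w
      have h4 := ha3 i w
      have e1 : 2 * c i + q i * (2 * t i w) = 2 * (c i + q i * t i w) := by ring
      rw [e1, abs_mul, abs_two, hB']
      push_cast
      linarith
    · intro i
      rw [En_two]
      exact Pool.Agent.H96.BK.lift_order (t i) h (h + 1) C C N (q i) (by omega) le_rfl hL1 (hE i)
    · intro i n hn
      have h4 := ha1 i n hn
      have h5 := hgz i n hn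
      refine ⟨by omega, ?_⟩
      have h6 : ((g i n : ℕ) : ℤ) ≤ ((B * N : ℕ) : ℤ) := by rw [h5]; push_cast; exact h4.2.2
      have h7 : g i n ≤ B * N := by exact_mod_cast h6
      refine h7.trans (Nat.mul_le_mul_right _ (by omega))
    · intro i n hn n' hn' hne h6
      apply ha2 i n hn n' hn' hne
      rw [← hgz i n hn, ← hgz i n' hn', h6]
    · intro i w n hn
      have h4 := ha4 i w n hn
      have h5 : (V : ℝ) < (((p n : ℤ) + 2 * (P i n + (c i + q i * t i w)) : ℤ) : ℝ) := lt_of_le_of_lt hVr h4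
      have h6 : (V : ℤ) < (p n : ℤ) + 2 * (P i n + (c i + q i * t i w)) := by exact_mod_cast h5
      rw [hgz i n hn]
      linarith
    · intro w hw
      obtain ⟨b, hb, hgood⟩ := hw
      refine ⟨fun i => 2 * (b i - (c i + q i * t i (w i))), fun i => ?_, fun h5 => hgood ?_⟩
      · have h4 := hb i
        have h5 : (((b i - (c i + q i * t i (w i))).natAbs : ℕ) : ℝ) ≤ Real.log N ^ W := by
          rw [Nat.cast_natAbs, Int.cast_abs]
          push_cast at h4 ⊢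
          exact h4
        have h6 : (b i - (c i + q i * t i (w i))).natAbs ≤ ⌊Real.log N ^ W⌋₊ := Nat.le_floor h5
        show |2 * (b i - (c i + q i * t i (w i)))| ≤ (V : ℤ)
        rw [abs_mul, abs_two, hV]
        push_cast
        have h7 : |b i - (c i + q i * t i (w i))| = ((b i - (c i + q i * t i (w i))).natAbs : ℤ) := by
          rw [Int.natCast_natAbs]
        rw [h7]
        have h8 : ((b i - (c i + q i * t i (w i))).natAbs : ℤ) ≤ (⌊Real.log N ^ W⌋₊ : ℤ) := by exact_mod_cast h6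
        linarith
      · refine good_of ε A N z 𝒩 P b g _ hL1 ?_ h5
        intro i n hn
        rw [hgz i n hn]
        ring

open Classical in
/-- Let `k`, `A`, `B`, `C`, `W` be natural numbers and `ε, ρ > 0`. The following three statements hold.

(1) For every `h` there are `D₀`, `e` such that for all `E`, all large `N` and all integers `z` with
`log ^ D₀ N ≤ z ≤ log ^ E N` there are a sparse set `D` and a set `Q` of moduli as in `Moduli`: `Q` contains all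
`q ≤ N ^ (2 / 3 - ρ)` without a divisor in `D`, and for every `X ≤ N` all but `(X ^ 2 / N) log ^ e N` of the moduli `q ≤ X`
without a divisor in `D`; the members of `D` are larger than `log ^ A N`, and at most `X ^ ρ` of them are at most `X`. For
all moduli `q 1, ..., q k` in `Q`, all integers `c 1, ..., c k` and ALL finite families `t i : Z i → ℤ`, `i = 1, ..., k`,
the additive energies of order `h` of which are at most `log ^ C N` times `|Z i| ^ (2 h) / (N / q i)`, the smallest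
possible value up to the logarithms, and for ALL functions `P_i` and sets `𝒩` as in `Adm` (the integers
`p_n + 2 P_i(n)`, `n ∈ 𝒩`, are distinct, positive and `≤ B N`) the following holds: for all `w = (w 1, ..., w k)` with at
most `1 / log ^ A N` times the number of all of them as exceptions, ALL integers `b 1, ..., b k` with
`|b i - (c i + q i t i (w i))| ≤ log ^ W N` are good: the number of the `n ∈ 𝒩` for which all `p_n + 2 (P_i(n) + b_i)`
are prime is the number of the `n ∈ 𝒩` for which none of them has a prime factor `≤ z`, divided by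
`(log N ∏_{q ≤ z} (1 - 1/q)) ^ k`, up to `ε` times this quantity plus `N / log ^ A N`.

(2) The same holds for `t i (x) = a i 1 (x 1) ⋯ a i m (x m) + f i 1 (x) + ... + f i m (x)`, `m ≥ 2`, where the
`a i j : Y i j → ℤ` are any finite families of integers with `|a i j| ≤ M i j`, `N ^ δ ≤ M i j ≤ N ^ B`,
`∏ j, M i j ≥ (N / q i) / log ^ C N`, whose energies of order `h` are at most `log ^ C N` times
`|Y i j| ^ (2 h) / M i j`, and the `f i j` are ARBITRARY integer valued functions such that `f i j (x)` does not depend on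
`x j`.

(3) The same holds for `t i (n) = R i (n)`, `n ∈ F i`, where the `R i` are fixed nonconstant polynomials with integer
coefficients and `F i ⊆ {1, ..., X i}` are arbitrary sets with at least `X i / log ^ C N` elements (for instance: the
primes), where `X i ^ deg (R i) ≥ (N / q i) / log ^ C N`. -/
theorem result (k : ℕ) (A B C W : ℕ) (ε ρ : ℝ) (hε : 0 < ε) (hρ : 0 < ρ) :
    (∀ h : ℕ, ∃ D₀ e : ℕ, ∀ E : ℕ, ∃ N₀ : ℕ, ∀ N : ℕ, N₀ ≤ N → ∀ z : ℕ, Real.log N ^ D₀ ≤ z → (z : ℝ) ≤ Real.log N ^ E →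
      ∃ D Q : Finset ℕ, Moduli ρ A e N D Q ∧
      ∀ q : Fin k → ℕ, (∀ i, q i ∈ Q) → ∀ (c : Fin k → ℤ) (Z : Fin k → Type) [∀ i, Fintype (Z i)] (t : ∀ i, Z i → ℤ),
      (∀ i, (energy h (t i) : ℝ) * N ≤ Real.log N ^ C * q i * (Fintype.card (Z i) : ℝ) ^ (2 * h)) →
      ∀ (𝒩 : Finset ℕ) (P : Fin k → ℕ → ℤ), Adm B W N 𝒩 P (fun i w => c i + q i * t i w) →
      (((univ : Finset (∀ i, Z i)).filter (fun w => Bad ε A W N z 𝒩 P (fun i => c i + q i * t i (w i)))).card : ℝ) ≤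
        Fintype.card (∀ i, Z i) / Real.log N ^ A) ∧
    (∀ m h : ℕ, 2 ≤ m → ∀ δ : ℝ, 0 < δ → ∃ D₀ e : ℕ, ∀ E : ℕ, ∃ N₀ : ℕ, ∀ N : ℕ, N₀ ≤ N → ∀ z : ℕ,
      Real.log N ^ D₀ ≤ z → (z : ℝ) ≤ Real.log N ^ E → ∃ D Q : Finset ℕ, Moduli ρ A e N D Q ∧
      ∀ q : Fin k → ℕ, (∀ i, q i ∈ Q) → ∀ (c : Fin k → ℤ) (Y : Fin k → Fin m → Type) [∀ i j, Fintype (Y i j)]
      (a : ∀ i j, Y i j → ℤ) (M : Fin k → Fin m → ℕ),
      (∀ i j x, |a i j x| ≤ M i j) → (∀ i j, (N : ℝ) ^ δ ≤ M i j ∧ M i j ≤ N ^ B) →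
      (∀ i, (N : ℝ) ≤ Real.log N ^ C * q i * ∏ j, (M i j : ℝ)) →
      (∀ i j, (energy h (a i j) : ℝ) * M i j ≤ Real.log N ^ C * (Fintype.card (Y i j) : ℝ) ^ (2 * h)) →
      ∀ f : ∀ i, Fin m → (∀ j, Y i j) → ℤ, (∀ i, Free (f i)) →
      ∀ (𝒩 : Finset ℕ) (P : Fin k → ℕ → ℤ), Adm B W N 𝒩 P (fun i x => c i + q i * val (a i) (f i) x) →
      (((univ : Finset (∀ i j, Y i j)).filter
        (fun x => Bad ε A W N z 𝒩 P (fun i => c i + q i * val (a i) (f i) (x i)))).card : ℝ) ≤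
        Fintype.card (∀ i j, Y i j) / Real.log N ^ A) ∧
    (∀ R : Fin k → ℤ[X], (∀ i, 1 ≤ (R i).natDegree) →
      ∃ D₀ e : ℕ, ∀ E : ℕ, ∃ N₀ : ℕ, ∀ N : ℕ, N₀ ≤ N → ∀ z : ℕ, Real.log N ^ D₀ ≤ z → (z : ℝ) ≤ Real.log N ^ E →
      ∃ D Q : Finset ℕ, Moduli ρ A e N D Q ∧
      ∀ q : Fin k → ℕ, (∀ i, q i ∈ Q) → ∀ (c : Fin k → ℤ) (X : Fin k → ℕ) (F : Fin k → Finset ℕ),
      (∀ i, F i ⊆ Icc 1 (X i) ∧ (X i : ℝ) ≤ Real.log N ^ C * (F i).card) →
      (∀ i, (N : ℝ) ≤ Real.log N ^ C * q i * (X i : ℝ) ^ (R i).natDegree) →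
      ∀ (𝒩 : Finset ℕ) (P : Fin k → ℕ → ℤ),
      Adm B W N 𝒩 P (fun i (n : {n // n ∈ F i}) => c i + q i * (R i).eval ((n : ℕ) : ℤ)) →
      (((Fintype.piFinset F).filter (fun n => Bad ε A W N z 𝒩 P (fun i => c i + q i * (R i).eval (n i : ℤ)))).card : ℝ) ≤
        (∏ i, ((F i).card : ℝ)) / Real.log N ^ A) := by
  refine ⟨fun h => general k h A B C W ε ρ hε hρ, fun m h hm δ hδ => ?_, fun R hR => ?_⟩
  · obtain ⟨m, rfl⟩ : ∃ m', m = m' + 2 := ⟨m - 2, by omega⟩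
    obtain ⟨H, C', N₁, hH, h1⟩ := Pool.Agent.H96.LM.energy_scale m C B h δ hδ
    obtain ⟨D₀, e, h2⟩ := general k H A B C' W ε ρ hε hρ
    refine ⟨D₀, e, fun E => ?_⟩
    obtain ⟨N₂, h2⟩ := h2 E
    refine ⟨N₁ + N₂, fun N hN z hz1 hz2 => ?_⟩
    obtain ⟨D, Q, hDQ, hc⟩ := h2 N (by omega) z hz1 hz2
    refine ⟨D, Q, hDQ, ?_⟩
    intro q hq c Y _ a M ha hM hNM hE f hf 𝒩 P hv
    exact hc q hq c (fun i => ∀ j, Y i j) (fun i => val (a i) (f i))
      (fun i => h1 N (by omega) (q i) (Y i) (a i) (M i) (f i) (hM i) (ha i) (hE i) (hNM i) (hf i)) 𝒩 P hv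
  · choose H C' N₁ h1 using fun i => Pool.Agent.H96.LM.energy_poly_scale C (R i) (hR i)
    obtain ⟨H', hH'⟩ : ∃ H' : ℕ, ∀ i, H i ≤ H' := ⟨∑ i, H i, fun i => single_le_sum (f := H) (fun _ _ => Nat.zero_le _) (mem_univ i)⟩
    obtain ⟨C'', hC''⟩ : ∃ C'' : ℕ, ∀ i, C' i ≤ C'' := ⟨∑ i, C' i, fun i => single_le_sum (f := C') (fun _ _ => Nat.zero_le _) (mem_univ i)⟩
    obtain ⟨D₀, e, h2⟩ := general k H' A B C'' W ε ρ hε hρ
    refine ⟨D₀, e, fun E => ?_⟩
    obtain ⟨N₂, h2⟩ := h2 E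
    obtain ⟨N₃, h3⟩ := Pool.Agent.H373R2.T7.ev_L' 1
    refine ⟨∑ i, N₁ i + N₂ + N₃, fun N hN z hz1 hz2 => ?_⟩
    have hL1 := h3 N (by omega)
    have hN₁ : ∀ i, N₁ i ≤ N := by
      intro i
      have : N₁ i ≤ ∑ i, N₁ i := single_le_sum (f := N₁) (fun _ _ => Nat.zero_le _) (mem_univ i)
      omega
    obtain ⟨D, Q, hDQ, hc⟩ := h2 N (by omega) z hz1 hz2
    refine ⟨D, Q, hDQ, ?_⟩
    intro q hq c X F hF hX 𝒩 P hv
    have key : ∀ i, (Pool.Agent.TH935.GF.En H' (fun n : {n // n ∈ F i} => (R i).eval ((n : ℕ) : ℤ)) : ℝ) * N ≤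
        Real.log N ^ C'' * q i * (Fintype.card {n // n ∈ F i} : ℝ) ^ (2 * H') := by
      intro i
      apply Pool.Agent.H96.BK.lift_order _ (H i) H' (C' i) C'' N (q i) (hH' i) (hC'' i) hL1
      exact h1 i N (hN₁ i) (q i) (X i) (F i) (hF i).1 (hF i).2 (hX i)
    have h4 := hc q hq c (fun i => {n // n ∈ F i}) (fun i n => (R i).eval ((n : ℕ) : ℤ)) key 𝒩 P hv
    have e1 : (Fintype.card (∀ i, {n // n ∈ F i}) : ℝ) = ∏ i, ((F i).card : ℝ) := by
      rw [Fintype.card_pi]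
      push_cast
      exact prod_congr rfl fun j _ => by rw [Fintype.card_coe]
    rw [e1] at h4
    refine le_trans ?_ h4
    rw [Nat.cast_le]
    apply card_le_card_of_surjOn (fun x i => ((x i : {n // n ∈ F i}) : ℕ))
    intro x hx
    rw [mem_coe, mem_filter, Fintype.mem_piFinset] at hx
    refine ⟨fun i => ⟨x i, hx.1 i⟩, ?_, rfl⟩
    rw [mem_coe, mem_filter]
    exact ⟨mem_univ _, hx.2⟩

end Pool.Agent.Results.MP_3aaefc_nt.ConstantsInResidueClasses
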