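import Pool.Agent.H79.S.A
import Pool.Agent.H96.FL.H
import Pool.Agent.H96.LM.E

/-!
# `p_n + 2 (f(n) + c)` prime, `c` near `α v(x) + g(x) + β` with an ARBITRARY function `g`, for all real `α` outside a set
# of Hausdorff dimension zero

Q1 asks whether `p_n + 2 P(n)` is prime for infinitely many `n`. Here `P = f + c` with a constant `c`, and `f` is zero, or a
linear polynomial, or an arbitrary function for which the numbers `p_n + 2 f(n)` are different. The constants `c` are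
the integers in intervals of every length around the real numbers `α v(x) + g(x) + β`. Here `v` is any finite family of
integers whose additive energy of some order is as small as possible up to logarithms (it may consist of `N ^ δ` integers
only; for instance the values of a fixed polynomial at the members of a dense set), `g` is an ARBITRARY real function,
and `β` is an arbitrary real number which may depend on everything else. For given `v` and `g` the results hold for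
all real numbers `α` outside a small set: it meets every interval of length `1` in a set which is covered by `log ^ C N`
intervals of length `2 / log ^ D N`, `D` arbitrary, with `C` not depending on `D`. Consequently, for given `v` and `g` at
all the scales `N = 2 ^ i`, the asymptotic formula for constants `c` holds for all real `α` outside ONE set of Hausdorff
dimension zero. Some `α` must be excluded: `g` is arbitrary, so that for instance `α v + g` may vanish identically.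

Proof: helper96's method (`Pool.Agent.H96.FL`), applied to the family `2 v` and the sets of the numbers `p_n + 2 f(n)`, and
(`Pool.Agent.H79.S`) to von Mangoldt's function minus its sieve model, together with the evaluation of the main term for
all the shifts at once (`Pool.Agent.W93.TD.det3`, from the theorem of Siegel and Walfisz and the fundamental lemma).

From Mathlib: `Nat.nth Nat.Prime`: the primes in increasing order; `dimH`: the Hausdorff dimension; `∀ᶠ i in atTop, P i`: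
`P i` holds for all large `i`.
-/

set_option autoImplicit false

namespace Pool.Agent.Results.MP_3aaefc_nt.GenericRealConstants

open Finset Polynomial Filter
open scoped NNReal

/-- the `n`-th prime, `n ≥ 1` -/
noncomputable def p (n : ℕ) : ℕ := Nat.nth Nat.Prime (n - 1)

/-- The additive energy of order `s` of a finite family of integers: the number of the solutions of
`v (i 1) + ... + v (i s) = v (j 1) + ... + v (j s)`. -/
noncomputable def energy (s : ℕ) {ι : Type} [Fintype ι] (v : ι → ℤ) : ℕ :=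
  Nat.card {q : (Fin s → ι) × (Fin s → ι) // ∑ j, v (q.1 j) = ∑ j, v (q.2 j)}

open Classical in
/-- The sieve model of the indicator function of the primes: `1 / (log x ∏_{q ≤ z} (1 - 1 / q))` if `x ≥ 2` has no prime
factor `≤ z`, and `0` if `x = 0` or if `x` has a prime factor `≤ z` (for `x = 1` the logarithm is replaced by `log 2`). -/
noncomputable def model (z x : ℕ) : ℝ :=
  if 1 ≤ x ∧ ∀ q : ℕ, q.Prime → q ≤ z → ¬ q ∣ x then
    1 / (Real.log (max x 2 : ℕ) * ∏ q ∈ (Icc 1 z).filter Nat.Prime, (1 - 1 / (q : ℝ))) else 0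

/-- the number of the `n ∈ S` for which `p n + 2 (f n + c)` is prime -/
noncomputable def countIn (S : Finset ℕ) (f : ℕ → ℤ) (c : ℤ) : ℕ :=
  (S.filter (fun n => ((p n : ℤ) + 2 * (f n + c)).toNat.Prime)).card

/-- the prediction: the sum of the model over the numbers `p n + 2 (f n + c)`, `n ∈ S` (those which are positive) -/
noncomputable def expected (z : ℕ) (S : Finset ℕ) (f : ℕ → ℤ) (c : ℤ) : ℝ :=
  ∑ n ∈ S, model z ((p n : ℤ) + 2 * (f n + c)).toNat

/-- The constant `c` is good: the number of the `n ∈ S` for which `p n + 2 (f n + c)` is prime is as predicted, up to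
`N / log ^ U N`. -/
def Good (U N z : ℕ) (S : Finset ℕ) (f : ℕ → ℤ) (c : ℤ) : Prop :=
  |(countIn S f c : ℝ) - expected z S f c| ≤ N / Real.log N ^ U

/-- The real number `y` is bad: for some length `H`, `1 ≤ H ≤ N / 2`, more than `H / log ^ U N` integers `c` with
`|c - y| ≤ H` and `|c| ≤ B N` are not good for some pair `S l`, `f l`. (If `y` is not bad then ALL integers `c` with
`|c - y| < log ^ U N`, `|c| ≤ B N`, are good for all pairs.) -/
def Bad (B U N z : ℕ) {L : ℕ} (S : Fin L → Finset ℕ) (f : Fin L → ℕ → ℤ) (y : ℝ) : Prop :=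
  ∃ H : ℝ, 1 ≤ H ∧ 2 * H ≤ N ∧
    H / Real.log N ^ U < ({c : ℤ | |(c : ℝ) - y| ≤ H ∧ |c| ≤ B * N ∧ ∃ l, ¬ Good U N z (S l) (f l) c}.ncard : ℝ)

/-- The numbers `p n + 2 f n`, `n ∈ S`, are different and between `1` and `B N`, and `n ≥ 1`. -/
def Adm (B N : ℕ) (S : Finset ℕ) (f : ℕ → ℤ) : Prop :=
  (∀ n ∈ S, 1 ≤ n ∧ 1 ≤ (p n : ℤ) + 2 * f n ∧ (p n : ℤ) + 2 * f n ≤ B * N) ∧
    ∀ n ∈ S, ∀ n' ∈ S, (p n : ℤ) + 2 * f n = (p n' : ℤ) + 2 * f n' → n = n'

/-- the number of the `n ≥ 1` with `p n ≤ N` such that `p n + 2 c` is prime -/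
noncomputable def count (c N : ℕ) : ℕ := {n : ℕ | 1 ≤ n ∧ p n ≤ N ∧ (p n + 2 * c).Prime}.ncard

/-- the same with the weights `log q log (q + 2 c)` for `q = p n` -/
noncomputable def weighted (c N : ℕ) : ℝ :=
  ∑ q ∈ (Icc 1 N).filter (fun q : ℕ => q.Prime ∧ (q + 2 * c).Prime), Real.log q * Real.log (q + 2 * c)

/-- the singular series of the shift `2 c`, truncated at `z` -/
noncomputable def sing (c z : ℕ) : ℝ :=
  ∏ q ∈ (Icc 1 z).filter Nat.Prime, (1 - (if q ∣ 2 * c then 1 else 2) / (q : ℝ)) / (1 - 1 / (q : ℝ)) ^ 2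

/-- The formula of Hardy and Littlewood for the shift `2 c`: the singular series converges, to `S > 0` say; the weighted
number differs from `S N` by at most `N / log ^ U N`; and `S N / log ^ 2 N` is the number of the `n ≥ 1` with `p n ≤ N` such
that `p n + 2 c` is prime, up to a relative error of at most `ε`. -/
def Law (ε : ℝ) (U N c : ℕ) : Prop :=
  ∃ S : ℝ, 0 < S ∧ Tendsto (fun z => sing c z) atTop (nhds S) ∧ |weighted c N - S * N| ≤ N / Real.log N ^ U ∧
    |(count c N : ℝ) - S * (N / Real.log N ^ 2)| ≤ ε * (S * (N / Real.log N ^ 2))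

/-- The formula fails near the real number `y`: for some length `H`, `1 ≤ H ≤ N / 2`, more than `H / log ^ U N` integers `c`
with `|c - y| ≤ H` and `1 ≤ c ≤ B N` do not have the property `Law ε U N c`. (If it does not fail near `y` then ALL integers
`c` with `|c - y| < log ^ U N`, `1 ≤ c ≤ B N`, have this property.) -/
def Fails (ε : ℝ) (B U N : ℕ) (y : ℝ) : Prop :=
  ∃ H : ℝ, 1 ≤ H ∧ 2 * H ≤ N ∧
    H / Real.log N ^ U < ({c : ℕ | |(c : ℝ) - y| ≤ H ∧ 1 ≤ c ∧ c ≤ B * N ∧ ¬ Law ε U N c}.ncard : ℝ)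

/-- Every interval of length `1` meets `E` in a set which is covered by at most `n` intervals of length `2 δ`. -/
def Small (E : Set ℝ) (n δ : ℝ) : Prop :=
  ∀ x : ℝ, ∃ T : Finset ℝ, (T.card : ℝ) ≤ n ∧ ∀ α ∈ E, x ≤ α → α ≤ x + 1 → ∃ t ∈ T, |α - t| ≤ δ

theorem p_inj {n m : ℕ} (hn : 1 ≤ n) (hm : 1 ≤ m) (h : p n = p m) : n = m := by
  have := Nat.nth_injective Nat.infinite_setOfPred_prime h
  omega

theorem prime_p (n : ℕ) : (p n).Prime := Nat.prime_nth_prime _

theorem exists_p {q : ℕ} (hq : q.Prime) : ∃ n, 1 ≤ n ∧ p n = q :=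
  ⟨Nat.count Nat.Prime q + 1, by omega, by
    unfold p
    rw [Nat.add_sub_cancel]
    exact Nat.nth_count hq⟩

theorem count_eq (c N : ℕ) :
    count c N = Pool.Agent.H560R3.GB.primeTuples (fun _ : Fin 1 => 2 * c) N := by
  unfold count Pool.Agent.H560R3.GB.primeTuples
  rw [← Set.ncard_coe_finset]
  have himg : (((Icc 1 N).filter (fun q : ℕ => q.Prime ∧ ∀ _ : Fin 1, (q + 2 * c).Prime) : Finset ℕ) : Set ℕ) =
      p '' {n : ℕ | 1 ≤ n ∧ p n ≤ N ∧ (p n + 2 * c).Prime} := by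
    ext q
    rw [mem_coe, mem_filter, mem_Icc]
    constructor
    · rintro ⟨⟨-, h1⟩, h2, h3⟩
      obtain ⟨n, hn, rfl⟩ := exists_p h2
      exact ⟨n, ⟨hn, h1, h3 0⟩, rfl⟩
    · rintro ⟨n, ⟨hn, h1, h3⟩, rfl⟩
      exact ⟨⟨(prime_p n).one_le, h1⟩, prime_p n, fun _ => h3⟩
  rw [himg]
  symm
  apply Set.InjOn.ncard_image
  intro n hn m' hm h
  exact p_inj hn.1 hm.1 h

lemma nu_eq (a q : ℕ) (hq : q.Prime) :
    Pool.Agent.H373R2.T7.nuP (fun _ : Fin 1 => (a : ℤ)) q = if q ∣ a then 1 else 2 := by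
  rw [Pool.Agent.H373R2.T7.nuP_eq _ _ hq]
  unfold Pool.Agent.H373R2.T7.rhoP
  split_ifs with h
  · have h1 : (range q).filter (fun r => ¬ q ∣ r ∧ ∃ _ : Fin 1, (q : ℤ) ∣ (r : ℤ) + (a : ℤ)) = ∅ := by
      rw [filter_eq_empty_iff]
      rintro r _ ⟨h2, _, h3⟩
      apply h2
      have h4 : (q : ℤ) ∣ (a : ℤ) := by exact_mod_cast h
      have h5 : (q : ℤ) ∣ (r : ℤ) := (Int.dvd_add_left h4).1 h3
      exact_mod_cast h5
    rw [h1, card_empty]
  · have h1 : (range q).filter (fun r => ¬ q ∣ r ∧ ∃ _ : Fin 1, (q : ℤ) ∣ (r : ℤ) + (a : ℤ)) = {q - a % q} := by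
      have h0 : 0 < a % q := Nat.pos_of_ne_zero fun h2 => h (Nat.dvd_of_mod_eq_zero h2)
      have h0' : a % q < q := Nat.mod_lt _ hq.pos
      have h2 : ∀ r : ℕ, (q : ℤ) ∣ (r : ℤ) + (a : ℤ) ↔ q ∣ r + a % q := by
        intro r
        have h3 : ((r : ℤ) + (a : ℤ)) = ((r + a : ℕ) : ℤ) := by push_cast; ring
        rw [h3, Int.natCast_dvd_natCast, Nat.dvd_iff_mod_eq_zero, Nat.dvd_iff_mod_eq_zero, Nat.add_mod_mod]
      ext r
      rw [mem_filter, mem_range, mem_singleton]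
      constructor
      · rintro ⟨h3, h4, _, h5⟩
        rw [h2] at h5
        obtain ⟨k, hk⟩ := h5
        have hk1 : k = 1 := by
          have h6 : q * k < q * 2 := by rw [← hk]; omega
          have h7 : k < 2 := Nat.lt_of_mul_lt_mul_left h6
          have h8 : k ≠ 0 := by
            rintro rfl
            omega
          omega
        rw [hk1, mul_one] at hk
        omega
      · rintro rfl
        refine ⟨by omega, fun h3 => ?_, 0, ?_⟩
        · have h4 := Nat.le_of_dvd (by omega) h3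
          omega
        · rw [h2, Nat.sub_add_cancel h0'.le]
    rw [h1, card_singleton]

lemma sing_eq (c z : ℕ) : Pool.Agent.H373R2.T7.singZ (fun _ : Fin 1 => ((2 * c : ℕ) : ℤ)) z = sing c z := by
  unfold Pool.Agent.H373R2.T7.singZ sing
  apply prod_congr rfl
  intro q hq
  rw [mem_filter] at hq
  rw [nu_eq (2 * c) q hq.2]
  split_ifs <;> norm_num

/-- a single even shift is admissible -/
theorem adm_one (m : ℕ) : Pool.Agent.H373R2.T7.Admissible (fun _ : Fin 1 => ((2 * m : ℕ) : ℤ)) := by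
  intro q hq
  by_cases h : q ∣ 1 + 2 * m
  · refine ⟨2, fun h2 => ?_, fun _ h3 => ?_⟩
    · have h2' : q ∣ 2 := by exact_mod_cast h2
      have h4 : q ∣ 1 := (Nat.dvd_add_left (Dvd.dvd.mul_right h2' _)).1 h
      exact hq.one_lt.ne' (Nat.dvd_one.1 h4)
    · have h3' : q ∣ 2 + 2 * m := by
        have h6 : (q : ℤ) ∣ ((2 + 2 * m : ℕ) : ℤ) := by
          push_cast at h3 ⊢
          exact h3
        exact Int.natCast_dvd_natCast.1 h6
      have h4 : q ∣ (2 + 2 * m) - (1 + 2 * m) := Nat.dvd_sub h3' h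
      have h5 : (2 + 2 * m) - (1 + 2 * m) = 1 := by omega
      rw [h5] at h4
      exact hq.one_lt.ne' (Nat.dvd_one.1 h4)
  · refine ⟨1, fun h2 => hq.one_lt.ne' (Nat.dvd_one.1 (by exact_mod_cast h2)), fun _ h3 => h ?_⟩
    have h6 : (q : ℤ) ∣ ((1 + 2 * m : ℕ) : ℤ) := by
      push_cast at h3 ⊢
      exact h3
    exact Int.natCast_dvd_natCast.1 h6

lemma law_of (ε : ℝ) (U N c : ℕ) (hN : 1 ≤ Real.log N)
    (h : Pool.Agent.W93.TD.HLs ε (U + 1) N (fun _ : Fin 1 => 2 * c)) : Law ε U N c := by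
  obtain ⟨S, h1, h2, h3⟩ := h
  obtain ⟨h4, h5⟩ := h3 (adm_one c)
  refine ⟨S, h4, ?_, ?_, ?_⟩
  · refine h1.congr fun z => ?_
    exact sing_eq _ z
  · have e : weighted c N = Pool.Agent.H373R2.T7.tupleCount (fun _ : Fin 1 => ((2 * c : ℕ) : ℤ)) N := by
      rw [Pool.Agent.H560R3.GB.tupleCount_nat (fun _ : Fin 1 => 2 * c) N]
      unfold weighted
      have h6 : (Icc 1 N).filter (fun q : ℕ => q.Prime ∧ ∀ _ : Fin 1, (q + 2 * c).Prime) =
          (Icc 1 N).filter (fun q : ℕ => q.Prime ∧ (q + 2 * c).Prime) := by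
        apply filter_congr
        intro q _
        simp
      rw [h6]
      refine sum_congr rfl fun q _ => ?_
      push_cast
      simp
    rw [e]
    refine h2.trans ?_
    apply div_le_div_of_nonneg_left (Nat.cast_nonneg _) (by positivity)
    exact pow_le_pow_right₀ hN (Nat.le_succ _)
  · rw [count_eq]
    exact h5

open Classical in
lemma dif_eq (z B N : ℕ) (S : Finset ℕ) (f : ℕ → ℤ) (hS : Adm B N S f) (c : ℤ) :
    Pool.Agent.H96.FL.Dif z (S.image fun n => ((p n : ℤ) + 2 * f n).toNat) (2 * c) = (countIn S f c : ℝ) - expected z S f c := by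
  unfold Pool.Agent.H96.FL.Dif countIn expected
  have hto : ∀ n ∈ S, ((((p n : ℤ) + 2 * f n).toNat : ℕ) : ℤ) = (p n : ℤ) + 2 * f n := by
    intro n hn
    exact Int.toNat_of_nonneg (by have := (hS.1 n hn).2.1; omega)
  rw [sum_image, sum_sub_distrib]
  · have e : ∀ n ∈ S, ((((p n : ℤ) + 2 * f n).toNat : ℕ) : ℤ) + 2 * c = (p n : ℤ) + 2 * (f n + c) := by
      intro n hn
      rw [hto n hn]
      ring
    congr 1
    · rw [card_filter]
      push_cast
      refine sum_congr rfl fun n hn => ?_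
      rw [e n hn]
    · refine sum_congr rfl fun n hn => ?_
      rw [e n hn]
      rfl
  · intro n hn n' hn' h
    apply hS.2 n hn n' hn'
    rw [← hto n hn, ← hto n' hn']
    exact_mod_cast h

lemma energy_two (s : ℕ) {Z : Type} [Fintype Z] (v : Z → ℤ) :
    Pool.Agent.TH935.GF.En s (fun x => 2 * v x) = Pool.Agent.TH935.GF.En s v := by
  unfold Pool.Agent.TH935.GF.En
  apply Nat.card_congr
  apply Equiv.subtypeEquivRight
  intro q
  rw [← mul_sum, ← mul_sum]
  exact ⟨fun h => by linarith, fun h => by rw [h]⟩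

lemma card_filter_mono {Z : Type} [Fintype Z] (P Q : Z → Prop) (i1 : DecidablePred P) (i2 : DecidablePred Q)
    (h : ∀ x, P x → Q x) : (@filter Z P i1 univ).card ≤ (@filter Z Q i2 univ).card := by
  apply card_le_card
  intro x hx
  rw [mem_filter] at hx ⊢
  exact ⟨hx.1, h x hx.2⟩

open Classical in
lemma part1 (s B C₀ T U : ℕ) (hB : 1 ≤ B) : ∃ C : ℕ, ∀ D : ℕ, ∃ E₀ : ℕ, ∀ E : ℕ, ∃ N₀ : ℕ, ∀ N : ℕ, N₀ ≤ N →
    ∀ z : ℕ, Real.log N ^ E₀ ≤ z → (z : ℝ) ≤ Real.log N ^ E →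
    ∀ (Z : Type) [Fintype Z] (v : Z → ℤ), (∀ x, |v x| ≤ B * N) →
    (energy s v : ℝ) * N ≤ Real.log N ^ C₀ * (Fintype.card Z : ℝ) ^ (2 * s) → ∀ g : Z → ℝ,
    ∀ L : ℕ, (L : ℝ) ≤ Real.log N ^ T → ∀ (S : Fin L → Finset ℕ) (f : Fin L → ℕ → ℤ), (∀ l, Adm B N (S l) (f l)) →
    ∃ 𝓔 : Set ℝ, Small 𝓔 (Real.log N ^ C) (1 / Real.log N ^ D) ∧ ∀ α ∉ 𝓔, ∀ β : ℝ,
      (((univ : Finset Z).filter fun x => Bad B U N z S f (α * v x + g x + β)).card : ℝ) ≤
        Fintype.card Z / Real.log N ^ U := by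
  obtain ⟨C, hC⟩ := Pool.Agent.H96.FL.primes_sets s C₀ (2 * B) T (U + T + 1) (by omega)
  refine ⟨C, fun D => ?_⟩
  obtain ⟨E₀, hE₀⟩ := hC D
  refine ⟨E₀, fun E => ?_⟩
  obtain ⟨N₀, hN₀⟩ := hE₀ E
  obtain ⟨n1, h1⟩ := Pool.Agent.H373R2.T7.ev_L' 2
  refine ⟨max N₀ n1, fun N hN z hz1 hz2 Z _ v hv hE g L hL S f hS => ?_⟩
  have hL2 := h1 N (le_trans (le_max_right _ _) hN)
  have hL1 : 1 ≤ Real.log (N : ℝ) := by linarith
  have hL0 : 0 < Real.log (N : ℝ) := by linarith
  obtain ⟨𝓔, hE1, hE2⟩ := hN₀ N (le_trans (le_max_left _ _) hN) z hz1 hz2 Z (fun x => 2 * v x) (fun x => by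
      have := hv x
      rw [abs_mul, abs_of_pos (by norm_num : (0 : ℤ) < 2)]
      push_cast
      linarith) (by
      rw [energy_two]
      exact hE) (fun x => 2 * g x) (Fin L) univ (by rw [card_univ, Fintype.card_fin]; exact hL)
    (fun l => (S l).image fun n => ((p n : ℤ) + 2 * f l n).toNat) (by
      intro l _ m hm
      rw [mem_image] at hm
      obtain ⟨n, hn, rfl⟩ := hm
      have h2 := (hS l).1 n hn
      have h3 : ((((p n : ℤ) + 2 * f l n).toNat : ℕ) : ℤ) = (p n : ℤ) + 2 * f l n := Int.toNat_of_nonneg (by omega)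
      have h4 : ((((p n : ℤ) + 2 * f l n).toNat : ℕ) : ℤ) ≤ ((B * N : ℕ) : ℤ) := by
        rw [h3]
        push_cast
        exact h2.2.2
      have h5 : ((p n : ℤ) + 2 * f l n).toNat ≤ B * N := by exact_mod_cast h4
      refine ⟨by omega, h5.trans ?_⟩
      nlinarith)
  refine ⟨𝓔, hE1, fun α hα β => ?_⟩
  have h5 := hE2 α hα (2 * β)
  have hpow : Real.log (N : ℝ) ^ U ≤ Real.log (N : ℝ) ^ (U + T + 1) := pow_le_pow_right₀ hL1 (by omega)
  refine le_trans ?_ (h5.trans (div_le_div_of_nonneg_left (Nat.cast_nonneg _) (by positivity) hpow))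
  refine Nat.cast_le.2 (card_filter_mono _ _ _ _ fun x hx => ?_)
  obtain ⟨H, hH1, hH2, hH3⟩ := hx
  by_contra hcon
  push Not at hcon
  obtain ⟨K, hK⟩ : ∃ K : Fin L → Finset ℤ, K = fun l =>
      (Pool.Agent.H96.FL.win (α * ((2 * v x : ℤ) : ℝ) + 2 * g x + 2 * β) (2 * H)).filter (fun h : ℤ =>
        |h| ≤ (2 * B : ℕ) * N ∧ N / Real.log N ^ (U + T + 1) <
          |Pool.Agent.H96.FL.Dif z ((S l).image fun n => ((p n : ℤ) + 2 * f l n).toNat) h|) := ⟨_, rfl⟩
  have h6 : ∀ l, ((K l).card : ℝ) ≤ 2 * H / Real.log N ^ (U + T + 1) := by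
    intro l
    rw [hK]
    exact hcon l (mem_univ _) (2 * H) (by linarith) hH2
  have h7 : {c : ℤ | |(c : ℝ) - (α * v x + g x + β)| ≤ H ∧ |c| ≤ B * N ∧ ∃ l, ¬ Good U N z (S l) (f l) c}.ncard ≤
      ((univ : Finset (Fin L)).biUnion K).card := by
    rw [← Set.ncard_coe_finset]
    apply Set.ncard_le_ncard_of_injOn (fun c : ℤ => 2 * c) ?_ ?_ (finite_toSet _)
    · rintro c ⟨h8, h9, l, hl⟩
      simp only [coe_biUnion, Set.mem_iUnion]
      refine ⟨l, mem_coe.2 (mem_univ _), ?_⟩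
      rw [mem_coe, hK]
      simp only
      rw [mem_filter, Pool.Agent.H96.FL.mem_win]
      refine ⟨?_, ?_, ?_⟩
      · have h10 : (((2 * c : ℤ) : ℝ) - (α * ((2 * v x : ℤ) : ℝ) + 2 * g x + 2 * β)) =
            2 * ((c : ℝ) - (α * v x + g x + β)) := by push_cast; ring
        rw [h10, abs_mul, abs_of_pos (by norm_num : (0 : ℝ) < 2)]
        linarith
      · rw [abs_mul, abs_of_pos (by norm_num : (0 : ℤ) < 2)]
        push_cast
        linarith
      · rw [dif_eq z B N (S l) (f l) (hS l) c]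
        unfold Good at hl
        push Not at hl
        refine lt_of_le_of_lt ?_ hl
        exact div_le_div_of_nonneg_left (Nat.cast_nonneg _) (by positivity) hpow
    · intro a _ b _ h
      simp only at h
      omega
  have h8 : ((((univ : Finset (Fin L)).biUnion K).card : ℕ) : ℝ) ≤ H / Real.log N ^ U := by
    calc ((((univ : Finset (Fin L)).biUnion K).card : ℕ) : ℝ) ≤ ((∑ l : Fin L, (K l).card : ℕ) : ℝ) :=
          Nat.cast_le.2 card_biUnion_le
      _ = ∑ l : Fin L, ((K l).card : ℝ) := by push_cast; rfl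
      _ ≤ ∑ _l : Fin L, 2 * H / Real.log N ^ (U + T + 1) := sum_le_sum fun l _ => h6 l
      _ = L * (2 * H / Real.log N ^ (U + T + 1)) := by
          rw [sum_const, card_univ, Fintype.card_fin, nsmul_eq_mul]
      _ ≤ Real.log N ^ T * (2 * H / Real.log N ^ (U + T + 1)) := by
          apply mul_le_mul_of_nonneg_right hL
          have : 0 ≤ H := by linarith
          positivity
      _ = 2 / Real.log N * (H / Real.log N ^ U) := by
          rw [show U + T + 1 = T + (U + 1) by ring, pow_add, pow_succ]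
          field_simp
      _ ≤ 1 * (H / Real.log N ^ U) := by
          apply mul_le_mul_of_nonneg_right _ (div_nonneg (by linarith) (by positivity))
          rw [div_le_one hL0]
          exact hL2
      _ = _ := one_mul _
  have h9 : ({c : ℤ | |(c : ℝ) - (α * v x + g x + β)| ≤ H ∧ |c| ≤ B * N ∧ ∃ l, ¬ Good U N z (S l) (f l) c}.ncard : ℝ) ≤
      ((((univ : Finset (Fin L)).biUnion K).card : ℕ) : ℝ) := Nat.cast_le.2 h7
  linarith

open Classical in
lemma part2 (s B C₀ U : ℕ) (ε : ℝ) (hε : 0 < ε) : ∃ C : ℕ, ∀ D : ℕ, ∃ N₀ : ℕ, ∀ N : ℕ, N₀ ≤ N →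
    ∀ (Z : Type) [Fintype Z] (v : Z → ℤ), (∀ x, |v x| ≤ B * N) →
    (energy s v : ℝ) * N ≤ Real.log N ^ C₀ * (Fintype.card Z : ℝ) ^ (2 * s) → ∀ g : Z → ℝ,
    ∃ 𝓔 : Set ℝ, Small 𝓔 (Real.log N ^ C) (1 / Real.log N ^ D) ∧ ∀ α ∉ 𝓔, ∀ β : ℝ,
      (((univ : Finset Z).filter fun x => Fails ε B U N (α * v x + g x + β)).card : ℝ) ≤
        Fintype.card Z / Real.log N ^ U := by
  obtain ⟨C, hC⟩ := Pool.Agent.H79.S.law_scale s C₀ (2 * B) (U + 1) ε hε
  refine ⟨C, fun D => ?_⟩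
  obtain ⟨N₀, hN₀⟩ := hC D
  obtain ⟨n1, h1⟩ := Pool.Agent.H373R2.T7.ev_L' 2
  refine ⟨max N₀ n1, fun N hN Z _ v hv hE g => ?_⟩
  have hL2 := h1 N (le_trans (le_max_right _ _) hN)
  have hL1 : 1 ≤ Real.log (N : ℝ) := by linarith
  have hL0 : 0 < Real.log (N : ℝ) := by linarith
  obtain ⟨𝓔, hE1, hE2⟩ := hN₀ N (le_trans (le_max_left _ _) hN) Z (fun x => 2 * v x) (fun x => by
      have := hv x
      rw [abs_mul, abs_of_pos (by norm_num : (0 : ℤ) < 2)]
      push_cast
      linarith) (by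
      rw [energy_two]
      exact hE) (fun x => 2 * g x)
  refine ⟨𝓔, hE1, fun α hα β => ?_⟩
  have h5 := hE2 α hα (2 * β)
  have hpow : Real.log (N : ℝ) ^ U ≤ Real.log (N : ℝ) ^ (U + 1) := pow_le_pow_right₀ hL1 (by omega)
  refine le_trans ?_ (h5.trans (div_le_div_of_nonneg_left (Nat.cast_nonneg _) (by positivity) hpow))
  apply Nat.cast_le.2
  apply card_le_card
  intro x hx
  rw [mem_filter] at hx ⊢
  obtain ⟨h2, H, hH1, hH2, hH3⟩ := hx
  refine ⟨h2, 2 * H, by linarith, hH2, ?_⟩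
  have h3 : 2 * H / Real.log N ^ (U + 1) ≤ H / Real.log N ^ U := by
    rw [pow_succ, div_le_div_iff₀ (by positivity) (by positivity)]
    have h4 : 0 ≤ H * Real.log N ^ U := mul_nonneg (by linarith) (by positivity)
    nlinarith
  refine h3.trans_lt (hH3.trans_le ?_)
  apply Nat.cast_le.2
  rw [← Set.ncard_coe_finset]
  apply Set.ncard_le_ncard_of_injOn (fun c : ℕ => (2 * c : ℤ)) ?_ ?_ (finite_toSet _)
  · rintro c ⟨h8, h9, h10, h11⟩
    rw [mem_coe]
    unfold Pool.Agent.H79.S.badShifts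
    rw [mem_filter, Pool.Agent.H96.FL.mem_win]
    refine ⟨?_, ?_, ?_, ?_⟩
    · have h12 : (((2 * (c : ℤ) : ℤ) : ℝ) - (α * ((2 * v x : ℤ) : ℝ) + 2 * g x + 2 * β)) =
          2 * ((c : ℝ) - (α * v x + g x + β)) := by push_cast; ring
      rw [h12, abs_mul, abs_of_pos (by norm_num : (0 : ℝ) < 2)]
      linarith
    · omega
    · have h12 : ((c : ℕ) : ℤ) ≤ ((B * N : ℕ) : ℤ) := by exact_mod_cast h10
      push_cast at h12 ⊢
      linarith
    · intro h12
      apply h11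
      apply law_of ε U N c hL1
      have h13 : (2 * (c : ℤ)).toNat = 2 * c := by omega
      rw [h13] at h12
      exact h12
  · intro a _ b _ h
    simp only at h
    omega

lemma Law.mono {ε ε' : ℝ} {U N c : ℕ} (h : Law ε U N c) (hε : ε ≤ ε') : Law ε' U N c := by
  obtain ⟨S, h1, h2, h3, h4⟩ := h
  refine ⟨S, h1, h2, h3, h4.trans ?_⟩
  apply mul_le_mul_of_nonneg_right hε
  positivity

lemma Fails.mono {ε ε' : ℝ} {B B' U N : ℕ} {y : ℝ} (h : Fails ε' B U N y) (hε : ε ≤ ε') (hB : B ≤ B') : Fails ε B' U N y := by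
  obtain ⟨H, h1, h2, h3⟩ := h
  refine ⟨H, h1, h2, h3.trans_le ?_⟩
  apply Nat.cast_le.2
  apply Set.ncard_le_ncard
  · rintro c ⟨h4, h5, h6, h7⟩
    exact ⟨h4, h5, h6.trans (Nat.mul_le_mul_right _ hB), fun h8 => h7 (h8.mono hε)⟩
  · apply (Set.finite_Iic (B' * N)).subset
    rintro c ⟨_, _, h6, _⟩
    exact h6

open Classical in
/-- (1) Let `s`, `B ≥ 1`, `C₀`, `T`, `U` be natural numbers. There is `C` such that for every `D` there is `E₀` such that for
every `E` and all large `N` the following holds. Let `log ^ E₀ N ≤ z ≤ log ^ E N`, let `v : Z → ℤ` be ANY finite family of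
integers at most `B N` in absolute value, whose additive energy of order `s` is at most `log ^ C₀ N` times `|Z| ^ (2 s) / N`
(the smallest possible value up to the logarithms), let `g : Z → ℝ` be ARBITRARY, and let `S l`, `f l` be at most `log ^ T N`
ARBITRARY finite sets and functions such that the numbers `p_n + 2 f l n`, `n ∈ S l`, are different and between `1` and `B N`
(for instance `f l n = l n`). There is a set `𝓔` of real numbers which meets every interval of length `1` in a set covered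
by `log ^ C N` intervals of length `2 / log ^ D N`, and for all real numbers `α ∉ 𝓔` and ALL real numbers `β` the following
holds for all `x ∈ Z` but a proportion of `1 / log ^ U N`: for all `H` with `1 ≤ H ≤ N / 2`, all but `H / log ^ U N` of the
integers `c` with `|c - (α v(x) + g(x) + β)| ≤ H`, `|c| ≤ B N`, are good for all `l` (thus ALL of them if `H < log ^ U N`): the
number of the `n ∈ S l` for which `p_n + 2 (f l n + c)` is prime is the sum over `n ∈ S l` of the sieve model of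
`p_n + 2 (f l n + c)`, up to `N / log ^ U N`.

(2) The same for the asymptotic formula: let `ε > 0`; for `v`, `g` as in (1), all real `α` outside a set as in (1), and ALL
real `β` the following holds for all `x ∈ Z` but a proportion of `1 / log ^ U N`: for all `H` with `1 ≤ H ≤ N / 2`, all but
`H / log ^ U N` of the integers `c` with `|c - (α v(x) + g(x) + β)| ≤ H`, `1 ≤ c ≤ B N`, have the property `Law ε U N c`.

(3) Let `F` be a polynomial with integer coefficients of degree at least `1`. For all large `i` and `N = 2 ^ i` let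
`S i ⊆ {1, ..., X i}` be an arbitrary set with at least `X i / log ^ C₀ N` members, where `(X i) ^ deg F ≥ N / log ^ C₀ N` and
`|F| ≤ B N` on `S i`, and let `g i : ℕ → ℝ` be arbitrary functions. There is ONE set `E` of real numbers of Hausdorff
dimension zero such that for all real numbers `α ∉ E`, all `ε > 0`, `B'`, `U`, all large `i` and `N = 2 ^ i`, and ALL real
numbers `β` (which may depend on everything) the following holds for all `x ∈ S i` but `|S i| / log ^ U N`: for all `H` with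
`1 ≤ H ≤ N / 2`, all but `H / log ^ U N` of the integers `c` with `|c - (α F(x) + g i x + β)| ≤ H`, `1 ≤ c ≤ B' N`, have the
property `Law ε U N c`; in particular ALL these integers `c` if `H < log ^ U N`. -/
theorem result :
    (∀ s B C₀ T U : ℕ, 1 ≤ B → ∃ C : ℕ, ∀ D : ℕ, ∃ E₀ : ℕ, ∀ E : ℕ, ∃ N₀ : ℕ, ∀ N : ℕ, N₀ ≤ N →
      ∀ z : ℕ, Real.log N ^ E₀ ≤ z → (z : ℝ) ≤ Real.log N ^ E →
      ∀ (Z : Type) [Fintype Z] (v : Z → ℤ), (∀ x, |v x| ≤ B * N) →
      (energy s v : ℝ) * N ≤ Real.log N ^ C₀ * (Fintype.card Z : ℝ) ^ (2 * s) → ∀ g : Z → ℝ,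
      ∀ L : ℕ, (L : ℝ) ≤ Real.log N ^ T → ∀ (S : Fin L → Finset ℕ) (f : Fin L → ℕ → ℤ), (∀ l, Adm B N (S l) (f l)) →
      ∃ 𝓔 : Set ℝ, Small 𝓔 (Real.log N ^ C) (1 / Real.log N ^ D) ∧ ∀ α ∉ 𝓔, ∀ β : ℝ,
        (((univ : Finset Z).filter fun x => Bad B U N z S f (α * v x + g x + β)).card : ℝ) ≤
          Fintype.card Z / Real.log N ^ U) ∧
    (∀ (s B C₀ U : ℕ) (ε : ℝ), 0 < ε → ∃ C : ℕ, ∀ D : ℕ, ∃ N₀ : ℕ, ∀ N : ℕ, N₀ ≤ N →
      ∀ (Z : Type) [Fintype Z] (v : Z → ℤ), (∀ x, |v x| ≤ B * N) →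
      (energy s v : ℝ) * N ≤ Real.log N ^ C₀ * (Fintype.card Z : ℝ) ^ (2 * s) → ∀ g : Z → ℝ,
      ∃ 𝓔 : Set ℝ, Small 𝓔 (Real.log N ^ C) (1 / Real.log N ^ D) ∧ ∀ α ∉ 𝓔, ∀ β : ℝ,
        (((univ : Finset Z).filter fun x => Fails ε B U N (α * v x + g x + β)).card : ℝ) ≤
          Fintype.card Z / Real.log N ^ U) ∧
    (∀ F : ℤ[X], 1 ≤ F.natDegree → ∀ (B C₀ : ℕ) (X : ℕ → ℕ) (S : ℕ → Finset ℕ),
      (∀ᶠ i : ℕ in atTop, S i ⊆ Icc 1 (X i) ∧ (X i : ℝ) ≤ Real.log ((2 ^ i : ℕ) : ℝ) ^ C₀ * (S i).card ∧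
        ((2 ^ i : ℕ) : ℝ) ≤ Real.log ((2 ^ i : ℕ) : ℝ) ^ C₀ * (X i : ℝ) ^ F.natDegree ∧
        ∀ x ∈ S i, |F.eval (x : ℤ)| ≤ B * (2 ^ i : ℕ)) →
      ∀ g : ℕ → ℕ → ℝ, ∃ E : Set ℝ, dimH E = 0 ∧ ∀ α ∉ E, ∀ (ε : ℝ) (B' U : ℕ), 0 < ε → ∀ᶠ i : ℕ in atTop, ∀ β : ℝ,
        (((S i).filter fun x : ℕ => Fails ε B' U (2 ^ i) (α * F.eval (x : ℤ) + g i x + β)).card : ℝ) ≤
          (S i).card / Real.log ((2 ^ i : ℕ) : ℝ) ^ U) := by
  refine ⟨fun s B C₀ T U hB => part1 s B C₀ T U hB, fun s B C₀ U ε hε => part2 s B C₀ U ε hε, ?_⟩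
  intro F hF B C₀ X S hS g
  obtain ⟨i₁, hi₁⟩ := eventually_atTop.1 hS
  obtain ⟨s', C', n1, h1⟩ := Pool.Agent.H96.LM.energy_poly_scale C₀ F hF
  obtain ⟨bad, hbad⟩ : ∃ bad : ℕ → ℕ → ℕ → Set ℝ, bad = fun (m b U : ℕ) => {α : ℝ | ∃ᶠ i : ℕ in atTop, ∃ β : ℝ,
      ((S i).card : ℝ) / Real.log ((2 ^ i : ℕ) : ℝ) ^ U < (((S i).filter fun x : ℕ => Fails (1 / ((m : ℝ) + 1)) b U (2 ^ i)
        (α * F.eval (x : ℤ) + g i x + β)).card : ℝ)} := ⟨_, rfl⟩
  have hdim : ∀ m b U : ℕ, dimH (bad m b U) = 0 := by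
    intro m b U
    rw [← nonpos_iff_eq_zero]
    apply le_of_forall_gt
    intro σ hσ
    rcases eq_or_ne σ ⊤ with h | h
    · rw [h]
      exact lt_of_le_of_lt (dimH_mono (Set.subset_univ _)) (by rw [Real.dimH_univ]; exact ENNReal.one_lt_top)
    lift σ to ℝ≥0 using h with σ
    have hσ0 : 0 < σ := by exact_mod_cast hσ
    obtain ⟨τ, hτ0, hτ1⟩ := exists_between hσ0
    refine lt_of_le_of_lt ?_ (by exact_mod_cast hτ1 : (τ : ENNReal) < σ)
    obtain ⟨C, hC⟩ := part2 s' (B + b) C' U (1 / ((m : ℝ) + 1)) (by positivity)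
    obtain ⟨D, hD⟩ : ∃ D : ℕ, ((C : ℝ) + 2) / τ ≤ D := exists_nat_ge _
    have hτ' : (0 : ℝ) < τ := hτ0
    obtain ⟨N₀, hN₀⟩ := hC (D + 1)
    obtain ⟨i₀, hi₀⟩ : ∃ i₀, i₀ = max (max N₀ n1) (max i₁ 2) := ⟨_, rfl⟩
    have hi1 : ∀ i, i₀ ≤ 2 ^ (i + i₀) := by
      intro i
      have : i + i₀ < 2 ^ (i + i₀) := Nat.lt_two_pow_self
      omega
    have key : ∀ i : ℕ, ∃ 𝓔 : Set ℝ, Pool.Agent.H96.FL.Cov 𝓔 (Real.log ((2 ^ (i + i₀) : ℕ) : ℝ) ^ C)
        (1 / Real.log ((2 ^ (i + i₀) : ℕ) : ℝ) ^ (D + 1)) ∧ ∀ α ∉ 𝓔, ∀ β : ℝ,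
          (((S (i + i₀)).filter fun x : ℕ => Fails (1 / ((m : ℝ) + 1)) b U (2 ^ (i + i₀))
            (α * F.eval (x : ℤ) + g (i + i₀) x + β)).card : ℝ) ≤
            ((S (i + i₀)).card : ℝ) / Real.log ((2 ^ (i + i₀) : ℕ) : ℝ) ^ U := by
      intro i
      have hNi := hi1 i
      obtain ⟨hS1, hS2, hS3, hS4⟩ := hi₁ (i + i₀) (by omega)
      obtain ⟨N, hN⟩ : ∃ N, N = 2 ^ (i + i₀) := ⟨_, rfl⟩
      rw [← hN] at hNi hS2 hS3 hS4 ⊢
      have b0 : N₀ ≤ N := by omega
      have b1 : n1 ≤ N := by omega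
      have h3 := h1 N b1 1 (X (i + i₀)) (S (i + i₀)) hS1 hS2 (by rw [Nat.cast_one, mul_one]; exact hS3)
      rw [Nat.cast_one, mul_one] at h3
      obtain ⟨𝓔, hE1, hE2⟩ := hN₀ N b0 {n // n ∈ S (i + i₀)} (fun n => F.eval ((n : ℕ) : ℤ))
        (fun x => (hS4 x x.2).trans (by
          push_cast
          have : (0 : ℤ) ≤ (b : ℤ) * N := by positivity
          linarith)) h3 (fun n => g (i + i₀) n)
      refine ⟨𝓔, hE1, fun α hα β => ?_⟩
      have h4 := hE2 α hα β
      rw [Fintype.card_coe] at h4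
      refine le_trans ?_ h4
      apply Nat.cast_le.2
      apply card_le_card_of_surjOn (fun x : {n // n ∈ S (i + i₀)} => (x : ℕ))
      intro x hx
      rw [mem_coe, mem_filter] at hx
      refine ⟨⟨x, hx.1⟩, ?_, rfl⟩
      rw [mem_coe, mem_filter]
      exact ⟨mem_univ _, hx.2.mono le_rfl (Nat.le_add_left _ _)⟩
    choose 𝓔 hE1 hE2 using key
    have h3 := Pool.Agent.H96.FL.dim_log 𝓔 C (D + 1) i₀ τ hτ0 (by
      rw [div_le_iff₀ hτ'] at hD
      push_cast
      nlinarith) (by omega) (by omega) hE1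
    refine le_trans (dimH_mono ?_) h3
    intro α hα
    rw [hbad] at hα
    rw [Set.mem_ofPred_eq] at hα ⊢
    rw [frequently_atTop] at hα ⊢
    intro c
    obtain ⟨b', hb1, β, hb2⟩ := hα (c + i₀)
    obtain ⟨i, rfl⟩ : ∃ i, b' = i + i₀ := ⟨b' - i₀, by omega⟩
    refine ⟨i, by omega, ?_⟩
    by_contra hcon
    have := hE2 i α hcon β
    linarith
  refine ⟨⋃ q : ℕ × ℕ × ℕ, bad q.1 q.2.1 q.2.2, ?_, ?_⟩
  · rw [dimH_iUnion]
    simp only [hdim, iSup_const]
  · intro α hα ε B' U hε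
    obtain ⟨m, hm⟩ := exists_nat_one_div_lt hε
    rw [Set.mem_iUnion, not_exists] at hα
    have h2 := hα (m, B', U)
    simp only at h2
    rw [hbad, Set.mem_ofPred_eq, not_frequently] at h2
    filter_upwards [h2] with i hi β
    push Not at hi
    refine le_trans ?_ (hi β)
    apply Nat.cast_le.2
    apply card_le_card
    intro x hx
    rw [mem_filter] at hx ⊢
    exact ⟨hx.1, hx.2.mono hm.le le_rfl⟩

end Pool.Agent.Results.MP_3aaefc_nt.GenericRealConstants
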