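import Pool.Agent.H56.PD.Sets

/-!
# Polynomials `P_i = f + c_i` of degree one (and arbitrary functions `f`) whose constant terms are near the values of
# arbitrary polynomials in several variables at integers with restricted digits

Q1 asks whether `p_n + 2 P(n)` is prime for infinitely many `n`. Here the `P_i = f + c_i` have the same non-constant part `f`,
an arbitrary function such that the numbers `p_n + 2 f(n)` are distinct, for instance `f(n) = a n` (polynomials of degree
one; all slopes `a` up to a power of `log N` at once), and `n` is restricted to an arbitrary set. The constant terms are in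
windows of radius `(log N) ^ D / 2` around `(a_i + F_i(x_i)) / 2`, where `F_1, ..., F_s` are ANY integer polynomials of positive
degree in any number of variables (for instance products `x y z`, determinants, norm forms, sums of like powers) and the
digits in base `b` of the coordinates of the vectors `x_i` are restricted to arbitrary sets with at least two elements (for
instance: all digits are `0` or `1`); there may be as few as `N ^ δ` such vectors. For almost all `(x_1, ..., x_s)`, for ALL
constants in the windows, the number of the `n` for which all the numbers `p_n + 2 P_i(n)` are primes is the number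
predicted by the sieve by the primes up to a power of `log N`, with an error which saves an arbitrary power of the logarithm.

Method. The large spectrum of the values is thin (module `Pool.Agent.H56.PD`: Weyl differencing with respect to short
blocks of the lowest and of the highest digits, in all combinations). In `Pool.Agent.H56.PD.ML` and `Pool.Agent.H56.PD.Sets`
the maximal estimate for one form with arbitrary weights is derived from this, for all the shifts in the windows at
once; the passage to several forms and to the primes is `Pool.Agent.V11251.DS` (library).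
-/

set_option autoImplicit false

namespace Pool.Agent.Results.MP_3aaefc_nt.LinearPolynomialsNearValues

open Finset

/-- the `n`-th prime, `n ≥ 1` -/
noncomputable def p (n : ℕ) : ℕ := Nat.nth Nat.Prime (n - 1)

open Classical in
/-- The sieve model of the indicator function of the primes: `1 / (log x ∏_{p ≤ z} (1 - 1 / p))` if `x ≥ 2` has no prime
factor `≤ z`, and `0` if `x = 0` or if `x` has a prime factor `≤ z` (for `x = 1` the logarithm is replaced by `log 2`). -/
noncomputable def model (z x : ℕ) : ℝ :=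
  if 1 ≤ x ∧ ∀ p : ℕ, p.Prime → p ≤ z → ¬ p ∣ x then
    1 / (Real.log (max x 2 : ℕ) * ∏ p ∈ (Icc 1 z).filter Nat.Prime, (1 - 1 / (p : ℝ))) else 0

open Classical in
/-- the indices `n ≥ 1` in the set `S` with `p_n + 2 f(n) ≤ X` (and `n ≤ X`, which follows from this) -/
noncomputable def indices (S : Set ℕ) (f : ℕ → ℕ) (X : ℕ) : Finset ℕ := (Icc 1 X).filter (fun n => n ∈ S ∧ p n + 2 * f n ≤ X)

/-- the number of the `n ≥ 1` in the set `S` with `p_n + 2 f(n) ≤ X` for which all the `p_n + 2 (f(n) + c i)` are primes -/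
noncomputable def count {s : ℕ} (S : Set ℕ) (f : ℕ → ℕ) (c : Fin s → ℕ) (X : ℕ) : ℕ :=
  ((indices S f X).filter (fun n => ∀ i, (p n + 2 * (f n + c i)).Prime)).card

/-- For the first `L` of the pairs `(S l, f l)` and for all `X ≤ N`, the number of the `n` in `S l` with `p_n + 2 f_l(n) ≤ X` for
which all the numbers `p_n + 2 P_i(n)`, `P_i = f l + c i`, are primes is the sum of the products of their models over the
same `n`, up to an error of at most `N / log ^ U N`. -/
def Good {s : ℕ} (z U L N : ℕ) (S : ℕ → Set ℕ) (f : ℕ → ℕ → ℕ) (c : Fin s → ℕ) : Prop :=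
  ∀ l < L, ∀ X ≤ N, |(count (S l) (f l) c X : ℝ) -
    ∑ n ∈ indices (S l) (f l) X, ∏ i, model z (p n + 2 * (f l n + c i))| ≤ N / Real.log N ^ U

/-- the integers `x < b ^ k` whose digits in base `b` are allowed: the digit at `b ^ j` is in `A j` for all `j < k` -/
def withDigits (b k : ℕ) (A : ℕ → Finset ℕ) : Finset ℕ := (range (b ^ k)).filter (fun x => ∀ j < k, x / b ^ j % b ∈ A j)

theorem p_ge (n : ℕ) : n ≤ p n := by
  have := Nat.add_two_le_nth_prime (n - 1)
  unfold p
  omega

/-- a nondecreasing function is allowed -/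
theorem inj_of_mono (f : ℕ → ℕ) (hf : Monotone f) (S : Set ℕ) (hS : ∀ n ∈ S, 1 ≤ n) : Set.InjOn (fun n => p n + 2 * f n) S := by
  have key : ∀ n m : ℕ, 1 ≤ n → n < m → p n + 2 * f n < p m + 2 * f m := by
    intro n m hn hnm
    have h1 : p n < p m := Nat.nth_strictMono Nat.infinite_setOfPred_prime (by omega)
    have h2 := hf hnm.le
    omega
  intro n hn m hm h
  simp only at h
  rcases Nat.lt_trichotomy n m with h1 | h1 | h1
  · have := key n m (hS n hn) h1; omega
  · exact h1
  · have := key m n (hS m hm) h1; omega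

open Classical in
/-- (0) For nondecreasing functions `f` (for instance `f(n) = a n`) the numbers `p_n + 2 f(n)`, `n ≥ 1`, are distinct.

(1) Let `F i`, `1 ≤ i ≤ s`, be polynomials with integer coefficients in `n` variables, of total degrees `d i ≥ 1`, `b ≥ 2`,
and let `B`, `D`, `T`, `U`, `W` be fixed. Let `E` be a sufficiently large exponent, let `N` be large,
`log ^ E N ≤ z ≤ log ^ (E + 1) N`, let the numbers of digits `k i` satisfy `b ^ (k i * d i) ≤ B N` and
`N ≤ b ^ (k i * d i) log ^ W N`, let `A i v j ⊆ {0, ..., b - 1}` be ARBITRARY sets with at least two elements, let `a i` be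
integers with `|a i| ≤ B N`, and let `S l` be ARBITRARY sets of positive integers, `f l` arbitrary functions for which the
numbers `p_n + 2 f_l(n)`, `n ∈ S l`, are distinct, `l < L ≤ log ^ T N`; for example `f_l(n) = l n`. Then all the families
`x = (x 1, ..., x s)` of vectors `x i = (x i 1, ..., x i n)` for which the digit of `x i v` at `b ^ j` is in `A i v j` for all `v`
and `j < k i`, with the exception of a proportion of at most `1 / log ^ U N` of them, have the following property:
`Good z U L N S f c` for ALL `c 1, ..., c s ≥ 0` with `|2 c i - (a i + F i (x i))| ≤ log ^ D N`. -/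
theorem result : (∀ (f : ℕ → ℕ), Monotone f → ∀ S : Set ℕ, (∀ n ∈ S, 1 ≤ n) → Set.InjOn (fun n => p n + 2 * f n) S) ∧
    ∀ (s b n : ℕ), 2 ≤ b → ∀ F : Fin s → MvPolynomial (Fin n) ℤ, (∀ i, 1 ≤ (F i).totalDegree) → ∀ (B D T U W : ℕ),
    ∃ E₀ : ℕ, ∀ E : ℕ, E₀ ≤ E → ∃ N₀ : ℕ, ∀ N : ℕ, N₀ ≤ N → ∀ k : Fin s → ℕ,
      (∀ i, b ^ (k i * (F i).totalDegree) ≤ B * N) →
      (∀ i, (N : ℝ) ≤ (b : ℝ) ^ (k i * (F i).totalDegree) * Real.log N ^ W) →
      ∀ A : Fin s → Fin n → ℕ → Finset ℕ, (∀ i v, ∀ j < k i, A i v j ⊆ range b ∧ 2 ≤ (A i v j).card) →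
      ∀ a : Fin s → ℤ, (∀ i, |a i| ≤ (B : ℤ) * N) →
      ∀ z : ℕ, Real.log N ^ E ≤ z → (z : ℝ) ≤ Real.log N ^ (E + 1) →
      ∀ L : ℕ, (L : ℝ) ≤ Real.log N ^ T → ∀ (S : ℕ → Set ℕ) (f : ℕ → ℕ → ℕ), (∀ l, ∀ n ∈ S l, 1 ≤ n) →
      (∀ l, Set.InjOn (fun n => p n + 2 * f l n) (S l)) →
      (((Fintype.piFinset fun i => Fintype.piFinset fun v => withDigits b (k i) (A i v)).filter
        fun x : Fin s → Fin n → ℕ => ¬ ∀ c : Fin s → ℕ,
          (∀ i, |2 * (c i : ℝ) - (a i + MvPolynomial.eval (fun v => (x i v : ℤ)) (F i) : ℤ)| ≤ Real.log N ^ D) →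
            Good z U L N S f c).card : ℝ) ≤
        ((Fintype.piFinset fun i => Fintype.piFinset fun v => withDigits b (k i) (A i v)).card : ℝ) / Real.log N ^ U := by
  refine ⟨inj_of_mono, fun s b n hb F hF B D T U W => ?_⟩
  obtain ⟨E₀, h⟩ := Pool.Agent.H56.PD.sets s b n hb F hF (fun _ => 1) (fun _ => by norm_num) B D T U W
  refine ⟨E₀, fun E hE => ?_⟩
  obtain ⟨N₀, h1⟩ := h E hE
  refine ⟨N₀, fun N hN k hk1 hk2 A hA a ha z hz1 hz2 L hL S f hS hinj => ?_⟩
  refine h1 N hN k (fun i => by rw [Nat.mul_comm]; exact hk1 i) (fun i => by rw [Nat.mul_comm]; exact hk2 i) A hA a ha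
    z hz1 hz2 L hL (fun l => (fun n => p n + 2 * f l n) '' (S l))
    (fun i => Fintype.piFinset fun v => Pool.Agent.H56.PD.withDigits b (k i) (A i v)) (fun _ => rfl)
    (fun x : Fin s → Fin n → ℕ => ¬ ∀ c : Fin s → ℕ,
          (∀ i, |2 * (c i : ℝ) - (a i + MvPolynomial.eval (fun v => (x i v : ℤ)) (F i) : ℤ)| ≤ Real.log N ^ D) →
            Good z U L N S f c) _ ?_
  intro x _ hbad hgood
  apply hbad
  intro c hc l hl X hX
  have h2 := hgood (fun i => ((2 * c i : ℕ) : ℤ)) (fun i => by
    have := hc i
    push_cast at this ⊢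
    exact this) l hl X hX
  obtain ⟨t, ht⟩ : ∃ t : ℕ → ℕ, t = fun n => p n + 2 * f l n := ⟨_, rfl⟩
  have hinjt : ∀ T : Finset ℕ, (∀ n ∈ T, n ∈ S l) → Set.InjOn t T := by
    intro T hT n hn m hm h
    rw [ht] at h
    exact hinj l (hT n hn) (hT m hm) h
  have hmem : ∀ m : ℕ, (m ∈ Icc 1 X ∧ m ∈ (fun n => p n + 2 * f l n) '' (S l)) ↔ m ∈ (indices (S l) (f l) X).image t := by
    intro m
    rw [mem_image]
    unfold indices
    constructor
    · rintro ⟨h3, n, hn, rfl⟩
      rw [mem_Icc] at h3
      refine ⟨n, mem_filter.2 ⟨mem_Icc.2 ⟨hS l n hn, ?_⟩, hn, h3.2⟩, by rw [ht]⟩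
      have := p_ge n
      simp only at h3
      omega
    · rintro ⟨n, hn, rfl⟩
      rw [mem_filter, mem_Icc] at hn
      rw [ht]
      have h5 := p_ge n
      have h6 := hn.1.1
      have h7 : 1 ≤ p n + 2 * f l n := by omega
      exact ⟨mem_Icc.2 ⟨h7, hn.2.2⟩, n, hn.2.1, rfl⟩
  have hsub : ∀ n ∈ indices (S l) (f l) X, n ∈ S l := fun n hn => (mem_filter.1 hn).2.1
  rw [Pool.Agent.V11251.DS.DC_set' _ X z _ _ ((indices (S l) (f l) X).image t)
    (((indices (S l) (f l) X).filter (fun n => ∀ i, (p n + 2 * (f l n + c i)).Prime)).image t)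
    (fun m => ∏ i, model z (m + 2 * c i))] at h2
  · rw [card_image_of_injOn (hinjt _ (fun n hn => hsub n (mem_filter.1 hn).1)), sum_image (hinjt _ hsub)] at h2
    unfold count
    refine le_trans (le_of_eq ?_) h2
    congr 2
    apply sum_congr rfl
    intro n _
    apply prod_congr rfl
    intro i _
    rw [ht]
    congr 1
    ring
  · intro m
    exact (hmem m).symm
  · intro m
    rw [← and_assoc, hmem m, mem_image, mem_image]
    constructor
    · rintro ⟨n, hn, rfl⟩
      rw [mem_filter] at hn
      refine ⟨⟨n, hn.1, rfl⟩, fun i => ?_⟩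
      have h3 : ((1 : ℤ) * (t n : ℤ) + ((2 * c i : ℕ) : ℤ)).toNat = p n + 2 * (f l n + c i) := by
        rw [ht]; push_cast; omega
      rw [h3]
      exact hn.2 i
    · rintro ⟨⟨n, hn, rfl⟩, h4⟩
      refine ⟨n, mem_filter.2 ⟨hn, fun i => ?_⟩, rfl⟩
      have h3 : ((1 : ℤ) * (t n : ℤ) + ((2 * c i : ℕ) : ℤ)).toNat = p n + 2 * (f l n + c i) := by
        rw [ht]; push_cast; omega
      rw [← h3]
      exact h4 i
  · intro m _
    apply prod_congr rfl
    intro i _
    rw [Pool.Agent.V11251.DS.Mo_add]
    rfl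

end Pool.Agent.Results.MP_3aaefc_nt.LinearPolynomialsNearValues
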