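import Pool.Agent.H56.PD.Tup

/-!
# `p_n + 2 c_1, ..., p_n + 2 c_s` simultaneously prime, for ALL constants near the values of arbitrary polynomials in
# several variables at integers with restricted digits

Q1 asks whether `p_n + 2 P(n)` is prime for infinitely many `n`; here the polynomials are constants. `F_1, ..., F_s` are
ANY integer polynomials of positive degree in any number of variables (for instance products `x y z`, determinants, norm
forms, sums of like powers), the digits of the coordinates of the vectors `x_1, ..., x_s` in base `b` are restricted to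
arbitrary sets with at least two elements (for instance: all digits are `0` or `1`). For almost all `(x_1, ..., x_s)`, for ALL
`s`-tuples of constants `c_i ≥ 0` such that `2 c_i` is within `(log N) ^ E` of `a_i + F_i(x_i)`, the number of the `n` with
`p_n ≤ N` for which all the `p_n + 2 c_i` are primes is asymptotically the expected one (with the weights `log` there is
an error term which saves an arbitrary power of the logarithm). The integers `a_i` with `|a_i| ≤ B N` are arbitrary.
The set of the values is very thin: there may be as few as `N ^ δ` of them.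

Method. The large spectrum of the values is thin (module `Pool.Agent.H56.PD`: Weyl differencing with respect to short
blocks of the lowest and of the highest digits, in all combinations). The conclusion is drawn with the theorem of the
library on prime tuples with random shifts that have a thin large spectrum (`Pool.Agent.Y885.tl_tuples`), for all the
shifts in the windows at once.
-/

set_option autoImplicit false

open Filter Finset

namespace Pool.Agent.Results.MP_3aaefc_nt.TuplesNearPolynomials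

/-- the `n`-th prime, `n ≥ 1` -/
noncomputable def p (n : ℕ) : ℕ := Nat.nth Nat.Prime (n - 1)

/-- the number of the `n ≥ 1` with `p n ≤ N` such that `p n + 2 m i` is prime for all `i < s` -/
noncomputable def count {s : ℕ} (m : Fin s → ℕ) (N : ℕ) : ℕ := {n : ℕ | 1 ≤ n ∧ p n ≤ N ∧ ∀ i, (p n + 2 * m i).Prime}.ncard

/-- the same with the weights `log q ∏ log (q + 2 m i)` for `q = p n` -/
noncomputable def weighted {s : ℕ} (m : Fin s → ℕ) (N : ℕ) : ℝ :=
  ∑ q ∈ (Icc 1 N).filter (fun q : ℕ => q.Prime ∧ ∀ i, (q + 2 * m i).Prime), Real.log q * ∏ i, Real.log (q + 2 * m i)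

/-- the number of the residue classes `r` modulo `q` with `q ∣ r` or `q ∣ r + a i` for some `i` -/
def nu {s : ℕ} (a : Fin s → ℕ) (q : ℕ) : ℕ := ((range q).filter (fun r => q ∣ r ∨ ∃ i, q ∣ r + a i)).card

/-- the singular series of the shifts `a i`, truncated at `z` -/
noncomputable def sing {s : ℕ} (a : Fin s → ℕ) (z : ℕ) : ℝ :=
  ∏ q ∈ (Icc 1 z).filter Nat.Prime, (1 - (nu a q : ℝ) / q) / (1 - 1 / (q : ℝ)) ^ (s + 1)

/-- There is no local obstruction: for every prime `q` there is an `r` such that `q` divides neither `r` nor any `r + a i`. -/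
def Admissible {s : ℕ} (a : Fin s → ℕ) : Prop := ∀ q : ℕ, q.Prime → ∃ r : ℕ, ¬ q ∣ r ∧ ∀ i, ¬ q ∣ r + a i

/-- The singular series of the shifts `2 m i` converges, to `S` say; the weighted number differs from `S N` by at most
`N / (log N) ^ U`; and if the shifts are admissible then `S > 0` and `S N / (log N) ^ (s + 1)` is the number of the `n ≥ 1`
with `p n ≤ N` such that `p n + 2 m i` is prime for all `i`, up to a relative error of at most `ε`. -/
def Law {s : ℕ} (ε : ℝ) (U N : ℕ) (m : Fin s → ℕ) : Prop :=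
  ∃ S : ℝ, Tendsto (fun z => sing (fun i => 2 * m i) z) atTop (nhds S) ∧ |weighted m N - S * N| ≤ N / Real.log N ^ U ∧
    (Admissible (fun i => 2 * m i) → 0 < S ∧
      |(count m N : ℝ) - S * (N / Real.log N ^ (s + 1))| ≤ ε * (S * (N / Real.log N ^ (s + 1))))

/-- the integers `x < b ^ k` whose digits in base `b` are allowed: the digit at `b ^ j` is in `A j` for all `j < k` -/
def withDigits (b k : ℕ) (A : ℕ → Finset ℕ) : Finset ℕ := (range (b ^ k)).filter (fun x => ∀ j < k, x / b ^ j % b ∈ A j)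

theorem p_inj {n m : ℕ} (hn : 1 ≤ n) (hm : 1 ≤ m) (h : p n = p m) : n = m := by
  have := Nat.nth_injective Nat.infinite_setOf_prime h
  omega

theorem prime_p (n : ℕ) : (p n).Prime := Nat.prime_nth_prime _

theorem exists_p {q : ℕ} (hq : q.Prime) : ∃ n, 1 ≤ n ∧ p n = q :=
  ⟨Nat.count Nat.Prime q + 1, by omega, by
    unfold p
    rw [Nat.add_sub_cancel]
    exact Nat.nth_count hq⟩

theorem count_eq {s : ℕ} (m : Fin s → ℕ) (N : ℕ) :
    count m N = Pool.Agent.H560R3.GB.primeTuples (fun i => 2 * m i) N := by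
  unfold count Pool.Agent.H560R3.GB.primeTuples
  rw [← Set.ncard_coe_finset]
  have himg : (((Icc 1 N).filter (fun q : ℕ => q.Prime ∧ ∀ i, (q + 2 * m i).Prime) : Finset ℕ) : Set ℕ) =
      p '' {n : ℕ | 1 ≤ n ∧ p n ≤ N ∧ ∀ i, (p n + 2 * m i).Prime} := by
    ext q
    rw [mem_coe, mem_filter, mem_Icc]
    constructor
    · rintro ⟨⟨-, h1⟩, h2, h3⟩
      obtain ⟨n, hn, rfl⟩ := exists_p h2
      exact ⟨n, ⟨hn, h1, h3⟩, rfl⟩
    · rintro ⟨n, ⟨hn, h1, h3⟩, rfl⟩
      exact ⟨⟨(prime_p n).one_le, h1⟩, prime_p n, h3⟩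
  rw [himg, Set.ncard_image_of_injOn]
  intro n hn m' hm h
  exact p_inj hn.1 hm.1 h

lemma sing_eq {s : ℕ} (a : Fin s → ℕ) (z : ℕ) : Pool.Agent.H373R2.T7.singZ (fun i => (a i : ℤ)) z = sing a z := by
  unfold Pool.Agent.H373R2.T7.singZ sing
  apply prod_congr rfl
  intro q _
  have : Pool.Agent.H373R2.T7.nuP (fun i => (a i : ℤ)) q = nu a q := by
    unfold Pool.Agent.H373R2.T7.nuP nu
    congr 1
    apply filter_congr
    intro r _
    have : ∀ i, ((q : ℤ) ∣ (r : ℤ) + (a i : ℤ)) ↔ q ∣ r + a i := by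
      intro i
      rw [← Int.natCast_dvd_natCast]
      push_cast
      rfl
    simp only [this]
  rw [this]

lemma adm_of {s : ℕ} (a : Fin s → ℕ) (h : Admissible a) : Pool.Agent.H373R2.T7.Admissible (fun i => (a i : ℤ)) := by
  intro q hq
  obtain ⟨r, h1, h2⟩ := h q hq
  refine ⟨r, by exact_mod_cast h1, fun i hi => h2 i ?_⟩
  rw [← Int.natCast_dvd_natCast]
  push_cast
  exact hi

lemma law_of {s : ℕ} (ε : ℝ) (U N : ℕ) (m : Fin s → ℕ) (h : Pool.Agent.W93.TD.HLs ε U N (fun i => 2 * m i)) : Law ε U N m := by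
  obtain ⟨S, h1, h2, h3⟩ := h
  refine ⟨S, ?_, ?_, fun hadm => ?_⟩
  · refine h1.congr fun z => ?_
    exact sing_eq _ z
  · have e : weighted m N = Pool.Agent.H373R2.T7.tupleCount (fun i => ((2 * m i : ℕ) : ℤ)) N := by
      rw [Pool.Agent.H560R3.GB.tupleCount_nat (fun i => 2 * m i) N]
      unfold weighted
      push_cast
      rfl
    rw [e]
    exact h2
  · obtain ⟨h4, h5⟩ := h3 (adm_of _ hadm)
    refine ⟨h4, ?_⟩
    rw [count_eq]
    exact h5

/-- a single even shift is admissible -/
theorem adm_one (m : ℕ) : Admissible (fun _ : Fin 1 => 2 * m) := by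
  intro q hq
  by_cases h : q ∣ 1 + 2 * m
  · refine ⟨2, fun h2 => ?_, fun _ h3 => ?_⟩
    · have h4 : q ∣ 1 := (Nat.dvd_add_left (Dvd.dvd.mul_right h2 _)).1 h
      exact hq.one_lt.ne' (Nat.dvd_one.1 h4)
    · have h4 : q ∣ (2 + 2 * m) - (1 + 2 * m) := Nat.dvd_sub h3 h
      have h5 : (2 + 2 * m) - (1 + 2 * m) = 1 := by omega
      rw [h5] at h4
      exact hq.one_lt.ne' (Nat.dvd_one.1 h4)
  · exact ⟨1, fun h2 => hq.one_lt.ne' (Nat.dvd_one.1 h2), fun _ h3 => h h3⟩

open Classical in
/-- (0) For one constant polynomial `P = m` the shift `2 m` is always admissible.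

(1) Let `F i`, `1 ≤ i ≤ s`, be polynomials with integer coefficients in `n` variables, of total degrees `D i ≥ 1`, let `b ≥ 2`,
and let `B`, `E`, `U`, `W` be natural numbers, `ε > 0`. For all sufficiently large `N` and all numbers of digits `k i` with
`b ^ (k i * D i) ≤ B N` and `N ≤ b ^ (k i * D i) (log N) ^ W`, for ARBITRARY sets `A i v j ⊆ {0, ..., b - 1}` with at least two
elements and all integers `a i` with `|a i| ≤ B N`, all but at most `1 / (log N) ^ U` of the families `x = (x 1, ..., x s)` of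
vectors `x i = (x i 1, ..., x i n)`, for which the digit of `x i v` at `b ^ j` is in `A i v j` for all `v` and `j < k i`, have
the following property: ALL constants `m 1, ..., m s ≥ 0` with `|2 m i - (a i + F i (x i))| ≤ (log N) ^ E` for all `i` satisfy
`Law ε U N m`. -/
theorem result : (∀ m : ℕ, Admissible (fun _ : Fin 1 => 2 * m)) ∧
    ∀ (s b n : ℕ), 1 ≤ s → 2 ≤ b → ∀ F : Fin s → MvPolynomial (Fin n) ℤ, (∀ i, 1 ≤ (F i).totalDegree) →
    ∀ (B E U W : ℕ) (ε : ℝ), 0 < ε →
    ∃ N₀ : ℕ, ∀ N : ℕ, N₀ ≤ N → ∀ k : Fin s → ℕ, (∀ i, b ^ (k i * (F i).totalDegree) ≤ B * N) →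
      (∀ i, (N : ℝ) ≤ (b : ℝ) ^ (k i * (F i).totalDegree) * Real.log N ^ W) →
      ∀ A : Fin s → Fin n → ℕ → Finset ℕ, (∀ i v, ∀ j < k i, A i v j ⊆ range b ∧ 2 ≤ (A i v j).card) →
      ∀ a : Fin s → ℤ, (∀ i, |a i| ≤ (B : ℤ) * N) →
      (((Fintype.piFinset fun i => Fintype.piFinset fun v => withDigits b (k i) (A i v)).filter
        fun x : Fin s → Fin n → ℕ => ¬ ∀ m : Fin s → ℕ,
          (∀ i, |2 * (m i : ℝ) - (a i + MvPolynomial.eval (fun v => (x i v : ℤ)) (F i) : ℤ)| ≤ Real.log N ^ E) →
            Law ε U N m).card : ℝ) ≤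
        ((Fintype.piFinset fun i => Fintype.piFinset fun v => withDigits b (k i) (A i v)).card : ℝ) / Real.log N ^ U := by
  refine ⟨adm_one, fun s b n hs hb F hF B E U W ε hε => ?_⟩
  obtain ⟨N₀, h0⟩ := Pool.Agent.H56.PD.tuples s b n hs hb F hF B E U W ε hε
  refine ⟨N₀, fun N hN k hk1 hk2 A hA a ha => ?_⟩
  refine h0 N hN k (fun i => by rw [Nat.mul_comm]; exact hk1 i) (fun i => by rw [Nat.mul_comm]; exact hk2 i) A hA a ha
    (fun i => Fintype.piFinset fun v => Pool.Agent.H56.PD.withDigits b (k i) (A i v)) (fun _ => rfl)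
    (fun x : Fin s → Fin n → ℕ => ¬ ∀ m : Fin s → ℕ,
          (∀ i, |2 * (m i : ℝ) - (a i + MvPolynomial.eval (fun v => (x i v : ℤ)) (F i) : ℤ)| ≤ Real.log N ^ E) →
            Law ε U N m) _ ?_
  intro x _ hbad hgood
  apply hbad
  intro m hm
  apply law_of
  apply hgood
  intro i
  have := hm i
  push_cast at this ⊢
  exact this

end Pool.Agent.Results.MP_3aaefc_nt.TuplesNearPolynomials
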